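import Mathlib
import Pool.Agent.N741.FD.Wr

/-!
A sum of three powers which vanishes to high order at `0`.
-/

set_option autoImplicit false

namespace Pool.Agent.Run7.h777.FC

open Finset Polynomial
open Pool.Agent.N741.FD (Lt lt_deriv proportional)

/-- the Wronskian type polynomial of `X1 ^ p` and `T ^ k X2 ^ c` -/
noncomputable def Wx (k c p : ℕ) (X2 X1 : ℚ[X]) : ℚ[X] :=
  (C (k : ℚ) * X2 + C (c : ℚ) * X * derivative X2) * X1 - C (p : ℚ) * X * X2 * derivative X1

theorem dT (k c : ℕ) (X2 : ℚ[X]) :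
    X * derivative (X ^ k * X2 ^ c) * X2 =
      X ^ k * X2 ^ c * (C (k : ℚ) * X2 + C (c : ℚ) * X * derivative X2) := by
  rw [derivative_mul, derivative_X_pow, derivative_pow]
  cases k with
  | zero =>
    cases c with
    | zero => simp
    | succ c =>
      simp only [Nat.add_sub_cancel, Nat.cast_add, Nat.cast_one, map_add, map_natCast, map_one,
        Nat.cast_zero, map_zero, pow_zero, zero_mul, zero_add]
      ring
  | succ k =>
    cases c with
    | zero => simp; ring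
    | succ c =>
      simp only [Nat.add_sub_cancel, Nat.cast_add, Nat.cast_one, map_add, map_natCast, map_one]
      ring

theorem Wx_deg {k c p Φ : ℕ} {X2 X1 : ℚ[X]} (h2 : X2.natDegree ≤ Φ) (h1 : X1.natDegree ≤ Φ) :
    (Wx k c p X2 X1).natDegree ≤ 2 * Φ := by
  have e : ∀ {Y : ℚ[X]}, Y.natDegree ≤ Φ → (X * derivative Y).natDegree ≤ Φ := by
    intro Y hY
    by_cases h0 : derivative Y = 0
    · rw [h0, mul_zero, natDegree_zero]; omega
    · have h3 := lt_deriv hY h0
      have h4 := natDegree_mul_le (p := (X : ℚ[X])) (q := derivative Y)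
      rw [natDegree_X] at h4
      omega
  have e1 : (C (k : ℚ) * X2).natDegree ≤ Φ := (natDegree_C_mul_le _ _).trans h2
  have e2 : (C (c : ℚ) * X * derivative X2).natDegree ≤ Φ := by
    rw [mul_assoc]; exact (natDegree_C_mul_le _ _).trans (e h2)
  have e3 : ((C (k : ℚ) * X2 + C (c : ℚ) * X * derivative X2) * X1).natDegree ≤ 2 * Φ := by
    refine natDegree_mul_le.trans ?_
    have := natDegree_add_le_of_degree_le e1 e2
    omega
  have e4 : (C (p : ℚ) * X * X2 * derivative X1).natDegree ≤ 2 * Φ := by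
    have : C (p : ℚ) * X * X2 * derivative X1 = (C (p : ℚ) * X2) * (X * derivative X1) := by ring
    rw [this]
    refine natDegree_mul_le.trans ?_
    have h5 := (natDegree_C_mul_le (p : ℚ) X2).trans h2
    have h6 := e h1
    omega
  unfold Wx
  rw [sub_eq_add_neg]
  refine natDegree_add_le_of_degree_le e3 ?_
  rw [natDegree_neg]; exact e4

theorem X_pow_dvd_cancel {n : ℕ} {Y Z : ℚ[X]} (hY : Y.eval 0 ≠ 0) (h : (X : ℚ[X]) ^ n ∣ Y * Z) :
    (X : ℚ[X]) ^ n ∣ Z := by
  have h1 : IsCoprime (X : ℚ[X]) Y := by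
    rw [irreducible_X.coprime_iff_not_dvd]
    intro h2
    rw [X_dvd_iff, coeff_zero_eq_eval_zero] at h2
    exact hY h2
  exact (h1.pow_left).dvd_of_dvd_mul_left h

theorem dvd_derivative {n : ℕ} {G : ℚ[X]} (h : (X : ℚ[X]) ^ (n + 1) ∣ G) :
    (X : ℚ[X]) ^ n ∣ derivative G := by
  obtain ⟨Q, rfl⟩ := h
  rw [derivative_mul, derivative_X_pow, Nat.add_sub_cancel]
  exact ⟨C ((n + 1 : ℕ) : ℚ) * Q + X * derivative Q, by ring⟩

theorem lt_of_X_pow_dvd {n : ℕ} {G : ℚ[X]} (h : (X : ℚ[X]) ^ n ∣ G) (hl : Lt G n) : G = 0 := by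
  by_contra h0
  have h1 := natDegree_le_of_dvd h h0
  rw [natDegree_X_pow] at h1
  have := hl h0
  omega

theorem alg {X1 X2 X3 : ℚ[X]} {Φ a b c k : ℕ} {c2 c3 : ℚ} (h1 : X1.eval 0 ≠ 0)
    (h3 : X3.eval 0 ≠ 0) (hc3 : c3 ≠ 0) (d1 : X1.natDegree ≤ Φ) (d2 : X2.natDegree ≤ Φ)
    (d3 : X3.natDegree ≤ Φ)
    (hF : (X : ℚ[X]) ^ (6 * Φ + 1) ∣
      X1 ^ (a + 2) + C c2 * (X ^ k * X2 ^ c) - C c3 * X3 ^ (b + 2)) :
    (Wx k c (a + 2) X2 X1 = 0 ∧ Wx k c (b + 2) X2 X3 = 0) ∨
    (Wx k c (a + 2) X2 X1 ≠ 0 ∧ Wx k c (b + 2) X2 X3 ≠ 0 ∧ ∃ u v : ℚ, u ≠ 0 ∧ v ≠ 0 ∧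
      C v * (X1 ^ (a + 1) * Wx k c (a + 2) X2 X1) = C u * (X3 ^ (b + 1) * Wx k c (b + 2) X2 X3)) := by
  set w1 := Wx k c (a + 2) X2 X1 with hw1
  set w3 := Wx k c (b + 2) X2 X3 with hw3
  have hw1d : w1.natDegree ≤ 2 * Φ := Wx_deg d2 d1
  have hw3d : w3.natDegree ≤ 2 * Φ := Wx_deg d2 d3
  set U := X1 ^ (a + 1) * w1 with hU
  set V := X3 ^ (b + 1) * w3 with hV
  set F := X1 ^ (a + 2) + C c2 * (X ^ k * X2 ^ c) - C c3 * X3 ^ (b + 2) with hFd
  set G := U - C c3 * V with hG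
  have hGF : G = (C (k : ℚ) * X2 + C (c : ℚ) * X * derivative X2) * F - X * X2 * derivative F := by
    have e1 : derivative F = C ((a + 2 : ℕ) : ℚ) * X1 ^ (a + 1) * derivative X1 +
        C c2 * derivative (X ^ k * X2 ^ c) - C c3 * (C ((b + 2 : ℕ) : ℚ) * X3 ^ (b + 1) * derivative X3) := by
      rw [hFd, derivative_sub, derivative_add, derivative_C_mul, derivative_C_mul,
        derivative_pow, derivative_pow]
      rw [show a + 2 - 1 = a + 1 by omega, show b + 2 - 1 = b + 1 by omega]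
    rw [e1, hFd, hG, hU, hV, hw1, hw3, Wx, Wx]
    have e2 := dT k c X2
    linear_combination (C c2) * e2
  have hGd : (X : ℚ[X]) ^ (6 * Φ + 1) ∣ G := by
    rw [hGF]
    refine dvd_sub (Dvd.dvd.mul_left hF _) ?_
    obtain ⟨Q, hQ⟩ := dvd_derivative hF
    rw [hQ]
    exact ⟨X2 * Q, by ring⟩
  have hG' : (X : ℚ[X]) ^ (6 * Φ) ∣ derivative G := dvd_derivative hGd
  set Ω := (C ((a + 1 : ℕ) : ℚ) * derivative X1 * w1 + X1 * derivative w1) * (X3 * w3) -
    (X1 * w1) * (C ((b + 1 : ℕ) : ℚ) * derivative X3 * w3 + X3 * derivative w3) with hΩ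
  have e3 : derivative U * V - U * derivative V = X1 ^ a * (X3 ^ b * Ω) := by
    rw [hU, hV, hΩ, derivative_mul, derivative_mul, derivative_pow, derivative_pow,
      Nat.add_sub_cancel, Nat.add_sub_cancel]
    ring
  have e4 : derivative U * V - U * derivative V = derivative G * V - G * derivative V := by
    rw [hG, derivative_sub, derivative_C_mul]; ring
  have hΩd : (X : ℚ[X]) ^ (6 * Φ) ∣ Ω := by
    have h5 : (X : ℚ[X]) ^ (6 * Φ) ∣ X1 ^ a * (X3 ^ b * Ω) := by
      rw [← e3, e4]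
      exact dvd_sub (hG'.mul_right _) (((pow_dvd_pow X (by omega)).trans hGd).mul_right _)
    have h6 := X_pow_dvd_cancel (by rw [eval_pow]; exact pow_ne_zero _ h1) h5
    exact X_pow_dvd_cancel (by rw [eval_pow]; exact pow_ne_zero _ h3) h6
  have hΩ0 : Ω = 0 := by
    rcases Nat.eq_zero_or_pos Φ with hΦ | hΦ
    · -- all constant
      have z1 : derivative X1 = 0 := derivative_of_natDegree_zero (by omega)
      have z3 : derivative X3 = 0 := derivative_of_natDegree_zero (by omega)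
      have z4 : derivative w1 = 0 := derivative_of_natDegree_zero (by omega)
      have z5 : derivative w3 = 0 := derivative_of_natDegree_zero (by omega)
      rw [hΩ, z1, z3, z4, z5]; ring
    apply lt_of_X_pow_dvd hΩd
    have q : ∀ {Y w : ℚ[X]} (e : ℕ), Y.natDegree ≤ Φ → w.natDegree ≤ 2 * Φ →
        Lt (C (e : ℚ) * derivative Y * w + Y * derivative w) (3 * Φ) := by
      intro Y w e hY hw
      apply Lt.add
      · have := ((lt_deriv hY).mul_le hw).C_mul (e : ℚ)
        rw [mul_assoc]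
        exact this.mono (by omega)
      · have := (lt_deriv hw).mul_le hY
        rw [mul_comm]
        exact this.mono (by omega)
    have r : ∀ {Y w : ℚ[X]}, Y.natDegree ≤ Φ → w.natDegree ≤ 2 * Φ → (Y * w).natDegree ≤ 3 * Φ := by
      intro Y w hY hw
      refine natDegree_mul_le.trans ?_
      omega
    apply Lt.sub
    · exact ((q (a + 1) d1 hw1d).mul_le (r d3 hw3d)).mono (by omega)
    · rw [mul_comm]
      exact ((q (b + 1) d3 hw3d).mul_le (r d1 hw1d)).mono (by omega)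
  have hX1 : X1 ≠ 0 := by rintro rfl; simp at h1
  have hX3 : X3 ≠ 0 := by rintro rfl; simp at h3
  by_cases z1 : w1 = 0
  · left
    refine ⟨z1, ?_⟩
    have h5 : (X : ℚ[X]) ^ (6 * Φ + 1) ∣ X3 ^ (b + 1) * w3 := by
      have h6 : G = C c3 * (- V) := by rw [hG, hU, z1]; ring
      rw [h6] at hGd
      have hu : IsUnit (C c3 : ℚ[X]) := isUnit_C.mpr (isUnit_iff_ne_zero.mpr hc3)
      rw [hu.dvd_mul_left, dvd_neg] at hGd
      exact hGd
    have h6 := X_pow_dvd_cancel (by rw [eval_pow]; exact pow_ne_zero _ h3) h5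
    exact lt_of_X_pow_dvd h6 (fun _ => by omega)
  by_cases z3 : w3 = 0
  · exfalso
    apply z1
    have h5 : (X : ℚ[X]) ^ (6 * Φ + 1) ∣ X1 ^ (a + 1) * w1 := by
      have h6 : G = U := by rw [hG, hV, z3]; ring
      rw [h6] at hGd
      exact hGd
    have h6 := X_pow_dvd_cancel (by rw [eval_pow]; exact pow_ne_zero _ h1) h5
    exact lt_of_X_pow_dvd h6 (fun _ => by omega)
  right
  refine ⟨z1, z3, ?_⟩
  have hU0 : U ≠ 0 := mul_ne_zero (pow_ne_zero _ hX1) z1
  have hV0 : V ≠ 0 := mul_ne_zero (pow_ne_zero _ hX3) z3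
  have h5 : U * derivative V = derivative U * V := by
    have : derivative U * V - U * derivative V = 0 := by rw [e3, hΩ0]; ring
    linear_combination -this
  exact proportional hU0 hV0 h5

end Pool.Agent.Run7.h777.FC
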