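import Mathlib
import Pool.Agent.Run7.h777.FC.Alg

/-!
High order of vanishing: one of the two outer bases divides a power of `w`, or its exponent is bounded.
-/

set_option autoImplicit false

namespace Pool.Agent.Run7.h777.FC

open Finset Polynomial
open Pool.Agent.N741.FD (proportional)

/-- the part of `A` coprime to `B` -/
theorem split (B : ℚ[X]) : ∀ (n : ℕ) (A : ℚ[X]), A ≠ 0 → A.natDegree ≤ n →
    ∃ (m : ℕ) (Y Z : ℚ[X]), A = Y * Z ∧ IsCoprime Y B ∧ Z ∣ B ^ m := by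
  intro n
  induction n with
  | zero =>
    intro A hA hd
    refine ⟨0, A, 1, by ring, ?_, by simp⟩
    have h1 : IsUnit A := by
      rw [isUnit_iff_degree_eq_zero, degree_eq_natDegree hA]
      exact_mod_cast Nat.le_zero.1 hd
    obtain ⟨u, hu⟩ := h1
    exact ⟨↑u⁻¹, 0, by rw [← hu]; simp⟩
  | succ n ih =>
    intro A hA hd
    by_cases hc : IsCoprime A B
    · exact ⟨0, A, 1, by ring, hc, by simp⟩
    · obtain ⟨π, hπ, hπA, hπB⟩ : ∃ π : ℚ[X], 0 < π.natDegree ∧ π ∣ A ∧ π ∣ B := by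
        refine ⟨EuclideanDomain.gcd A B, ?_, EuclideanDomain.gcd_dvd_left A B,
          EuclideanDomain.gcd_dvd_right A B⟩
        rw [Nat.pos_iff_ne_zero]
        intro h0
        apply hc
        rw [← EuclideanDomain.gcd_isUnit_iff]
        have h1 : EuclideanDomain.gcd A B ≠ 0 := by
          intro h2
          rw [EuclideanDomain.gcd_eq_zero_iff] at h2
          exact hA h2.1
        rw [isUnit_iff_degree_eq_zero, degree_eq_natDegree h1, h0]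
        rfl
      obtain ⟨A', rfl⟩ := hπA
      have hπ0 : π ≠ 0 := left_ne_zero_of_mul hA
      have hA' : A' ≠ 0 := right_ne_zero_of_mul hA
      rw [natDegree_mul hπ0 hA'] at hd
      obtain ⟨m, Y, Z, h1, h2, h3⟩ := ih A' hA' (by omega)
      refine ⟨m + 1, Y, π * Z, by rw [h1]; ring, h2, ?_⟩
      rw [pow_succ, mul_comm π Z]
      exact mul_dvd_mul h3 hπB

theorem dvd_of_eq {X1 X3 w1 w3 : ℚ[X]} {a b : ℕ} {u v : ℚ} (hX1 : X1 ≠ 0) (hw3 : w3 ≠ 0)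
    (hu : u ≠ 0) (ha : w3.natDegree < a)
    (h : C v * (X1 ^ a * w1) = C u * (X3 ^ b * w3)) : ∃ m : ℕ, X1 ∣ X3 ^ m := by
  obtain ⟨m, Y, Z, h1, h2, h3⟩ := split X3 _ X1 hX1 le_rfl
  have hCu : IsUnit (C u : ℚ[X]) := isUnit_C.mpr (isUnit_iff_ne_zero.mpr hu)
  have h4 : Y ^ a ∣ w3 := by
    have h5 : Y ^ a ∣ C u * (X3 ^ b * w3) := by
      rw [← h, h1]
      exact ⟨C v * (Z ^ a * w1), by ring⟩
    rw [hCu.dvd_mul_left] at h5
    exact (h2.pow).dvd_of_dvd_mul_left h5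
  have hY : Y ≠ 0 := by rintro rfl; rw [zero_mul] at h1; exact hX1 h1
  have h5 := natDegree_le_of_dvd h4 hw3
  rw [natDegree_pow] at h5
  have h6 : Y.natDegree = 0 := by
    by_contra h7
    have : a * 1 ≤ a * Y.natDegree := Nat.mul_le_mul_left _ (Nat.pos_of_ne_zero h7)
    omega
  have h7 : IsUnit Y := by
    rw [isUnit_iff_degree_eq_zero, degree_eq_natDegree hY, h6]; rfl
  refine ⟨m, ?_⟩
  rw [h1, h7.mul_left_dvd]
  exact h3

theorem prim {P : ℤ[X]} (h : P.coeff 0 = 1) : P.IsPrimitive := by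
  intro r hr
  rw [C_dvd_iff_dvd_coeff] at hr
  have := hr 0
  rw [h] at this
  exact isUnit_of_dvd_one this

theorem transfer {w f : ℕ} (hw : 1 ≤ w) {X1 X3 : ℤ[X]} (h1 : X1.coeff 0 = 1) (h3 : X3.coeff 0 = 1)
    {x1 x3 a1 a3 m : ℕ} (hx1 : (x1 : ℝ) = (w : ℝ) ^ a1 * aeval (1 / ((w ^ f : ℕ) : ℝ)) X1)
    (hx3 : (x3 : ℝ) = (w : ℝ) ^ a3 * aeval (1 / ((w ^ f : ℕ) : ℝ)) X3) (hcop : Nat.Coprime x1 x3)
    (hd : X1.map (Int.castRingHom ℚ) ∣ (X3.map (Int.castRingHom ℚ)) ^ m) : ∃ n, x1 ∣ w ^ n := by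
  rw [← Polynomial.map_pow, ← IsPrimitive.Int.dvd_iff_map_cast_dvd_map_cast _ _ (prim h1)] at hd
  obtain ⟨Q, hQ⟩ := hd
  have hwr : (0 : ℝ) < w := by exact_mod_cast hw
  set t : ℝ := 1 / ((w ^ f : ℕ) : ℝ) with ht
  have ht1 : ((w : ℝ) ^ f) * t = 1 := by rw [ht]; push_cast; field_simp
  -- the value of `Q`
  obtain ⟨z, hz⟩ : ∃ z : ℤ, (z : ℝ) = ((w : ℝ) ^ f) ^ Q.natDegree * aeval t Q := by
    refine ⟨∑ i ∈ range (Q.natDegree + 1), Q.coeff i * ((w : ℤ) ^ f) ^ (Q.natDegree - i), ?_⟩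
    rw [aeval_eq_sum_range, mul_sum]
    push_cast
    apply sum_congr rfl
    intro i hi
    rw [mem_range] at hi
    rw [zsmul_eq_mul]
    have h5 : ((w : ℝ) ^ f) ^ Q.natDegree = ((w : ℝ) ^ f) ^ (Q.natDegree - i) * ((w : ℝ) ^ f) ^ i := by
      rw [← pow_add]; congr 1; omega
    rw [h5]
    have h6 : ((w : ℝ) ^ f) ^ i * t ^ i = 1 := by rw [← mul_pow, ht1, one_pow]
    linear_combination (-(Q.coeff i : ℝ) * ((w : ℝ) ^ f) ^ (Q.natDegree - i)) * h6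
  have h5 : aeval t (X3 ^ m) = aeval t X1 * aeval t Q := by rw [hQ, map_mul]
  rw [map_pow] at h5
  have h6 : ((x3 : ℤ) ^ m * (w : ℤ) ^ (a1 + f * Q.natDegree) : ℤ) = x1 * ((w : ℤ) ^ (a3 * m) * z) := by
    have h7 : ((x3 : ℝ) ^ m * (w : ℝ) ^ (a1 + f * Q.natDegree)) =
        x1 * ((w : ℝ) ^ (a3 * m) * z) := by
      rw [hx3, hx1, hz, mul_pow, h5, pow_add, pow_mul, pow_mul]
      ring
    exact_mod_cast h7
  have h7 : (x1 : ℤ) ∣ (x3 : ℤ) ^ m * (w : ℤ) ^ (a1 + f * Q.natDegree) := ⟨_, h6⟩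
  have h8 : x1 ∣ x3 ^ m * w ^ (a1 + f * Q.natDegree) := by exact_mod_cast h7
  exact ⟨_, (Nat.Coprime.pow_right m hcop).dvd_of_dvd_mul_left h8⟩

theorem map_coeff0 {P : ℤ[X]} (h : P.coeff 0 = 1) : (P.map (Int.castRingHom ℚ)).eval 0 = 1 := by
  rw [← coeff_zero_eq_eval_zero, coeff_map, h]; simp

theorem of_pow_eq {w a1 a3 x1 x3 p1 p3 : ℕ} (hp1 : 1 ≤ p1) (hcop : Nat.Coprime x1 x3)
    (h : x1 ^ p1 * w ^ (a3 * p3) = x3 ^ p3 * w ^ (a1 * p1)) : ∃ n, x1 ∣ w ^ n := by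
  refine ⟨a1 * p1, ?_⟩
  have h1 : x1 ∣ x3 ^ p3 * w ^ (a1 * p1) := by
    rw [← h]
    exact (dvd_pow_self x1 (by omega)).mul_right _
  exact (Nat.Coprime.pow_right p3 hcop).dvd_of_dvd_mul_left h1

theorem core {w f : ℕ} (hw : 1 ≤ w) {X1 X2 X3 : ℤ[X]} {Φ p1 c p3 k : ℕ} {c2 c3 : ℤ}
    (h1 : X1.coeff 0 = 1) (h2 : X2.coeff 0 = 1) (h3 : X3.coeff 0 = 1) (hc3 : c3 ≠ 0)
    (d1 : X1.natDegree ≤ Φ) (d2 : X2.natDegree ≤ Φ) (d3 : X3.natDegree ≤ Φ)
    (hp1 : 2 ≤ p1) (hp3 : 2 ≤ p3)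
    {x1 x3 a1 a3 : ℕ} (hx1 : (x1 : ℝ) = (w : ℝ) ^ a1 * aeval (1 / ((w ^ f : ℕ) : ℝ)) X1)
    (hx3 : (x3 : ℝ) = (w : ℝ) ^ a3 * aeval (1 / ((w ^ f : ℕ) : ℝ)) X3) (hcop : Nat.Coprime x1 x3)
    (hF : (X : ℤ[X]) ^ (6 * Φ + 1) ∣ X1 ^ p1 + C c2 * (X ^ k * X2 ^ c) - C c3 * X3 ^ p3) :
    (p1 ≤ 2 * Φ + 1 ∨ ∃ n, x1 ∣ w ^ n) ∧ (p3 ≤ 2 * Φ + 1 ∨ ∃ n, x3 ∣ w ^ n) := by
  obtain ⟨a, rfl⟩ := Nat.exists_eq_add_of_le' hp1
  obtain ⟨b, rfl⟩ := Nat.exists_eq_add_of_le' hp3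
  set Y1 := X1.map (Int.castRingHom ℚ) with hY1
  set Y2 := X2.map (Int.castRingHom ℚ) with hY2
  set Y3 := X3.map (Int.castRingHom ℚ) with hY3
  have e1 : Y1.eval 0 = 1 := map_coeff0 h1
  have e2 : Y2.eval 0 = 1 := map_coeff0 h2
  have e3 : Y3.eval 0 = 1 := map_coeff0 h3
  have g : ∀ {P : ℤ[X]}, P.natDegree ≤ Φ → (P.map (Int.castRingHom ℚ)).natDegree ≤ Φ :=
    fun h => natDegree_map_le.trans h
  have hF' : (X : ℚ[X]) ^ (6 * Φ + 1) ∣
      Y1 ^ (a + 2) + C (c2 : ℚ) * (X ^ k * Y2 ^ c) - C (c3 : ℚ) * Y3 ^ (b + 2) := by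
    have := map_dvd (mapRingHom (Int.castRingHom ℚ)) hF
    simpa using this
  have n1 : Y1 ≠ 0 := by intro h; rw [h] at e1; simp at e1
  have n2 : Y2 ≠ 0 := by intro h; rw [h] at e2; simp at e2
  have n3 : Y3 ≠ 0 := by intro h; rw [h] at e3; simp at e3
  rcases alg (by rw [e1]; exact one_ne_zero) (by rw [e3]; exact one_ne_zero)
    (by exact_mod_cast hc3) (g d1) (g d2) (g d3) hF' with ⟨z1, z3⟩ | ⟨z1, z3, u, v, hu, hv, huv⟩
  · -- the three powers coincide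
    have hk : k = 0 := by
      have := congrArg (eval 0) z1
      simp only [Wx, eval_sub, eval_add, eval_mul, eval_C, eval_X, eval_zero] at this
      rw [map_coeff0 h1, map_coeff0 h2] at this
      have h5 : (k : ℚ) = 0 := by linarith
      exact_mod_cast h5
    subst hk
    have hX : (X : ℚ[X]) ≠ 0 := X_ne_zero
    have q : ∀ {Y : ℚ[X]} {e : ℕ}, Wx 0 c e Y2 Y = 0 →
        C (c : ℚ) * derivative Y2 * Y = C (e : ℚ) * Y2 * derivative Y := by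
      intro Y e h
      unfold Wx at h
      have h5 : X * (C (c : ℚ) * derivative Y2 * Y - C (e : ℚ) * Y2 * derivative Y) = 0 := by
        rw [← h]; simp; ring
      rcases mul_eq_zero.1 h5 with h6 | h6
      · exact absurd h6 hX
      · exact sub_eq_zero.1 h6
    have q1 := q z1
    have q3 := q z3
    have h5 : Y1 ^ (a + 2) * derivative (Y3 ^ (b + 2)) = derivative (Y1 ^ (a + 2)) * Y3 ^ (b + 2) := by
      have h6 : Y2 * (C ((b + 2 : ℕ) : ℚ) * Y1 * derivative Y3 - C ((a + 2 : ℕ) : ℚ) * derivative Y1 * Y3) = 0 := by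
        linear_combination Y3 * q1 - Y1 * q3
      rcases mul_eq_zero.1 h6 with h7 | h7
      · exact absurd h7 n2
      rw [derivative_pow, derivative_pow, show a + 2 - 1 = a + 1 by omega,
        show b + 2 - 1 = b + 1 by omega]
      linear_combination (Y1 ^ (a + 1) * Y3 ^ (b + 1)) * h7
    obtain ⟨u, v, hu, hv, huv⟩ := proportional (pow_ne_zero _ n1) (pow_ne_zero _ n3) h5
    have huv' : v = u := by
      have := congrArg (eval 0) huv
      simpa [e1, e3] using this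
    have h6 : Y1 ^ (a + 2) = Y3 ^ (b + 2) := by
      rw [huv'] at huv
      exact mul_left_cancel₀ (by rwa [Ne, C_eq_zero]) huv
    have h7 : X1 ^ (a + 2) = X3 ^ (b + 2) := by
      apply Polynomial.map_injective (Int.castRingHom ℚ) (Int.castRingHom ℚ).injective_int
      simpa using h6
    have h8 : x1 ^ (a + 2) * w ^ (a3 * (b + 2)) = x3 ^ (b + 2) * w ^ (a1 * (a + 2)) := by
      have h9 : ((x1 : ℝ) ^ (a + 2) * (w : ℝ) ^ (a3 * (b + 2))) =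
          (x3 : ℝ) ^ (b + 2) * (w : ℝ) ^ (a1 * (a + 2)) := by
        have h10 := congrArg (aeval (1 / ((w ^ f : ℕ) : ℝ))) h7
        rw [map_pow, map_pow] at h10
        rw [hx1, hx3, mul_pow, mul_pow, h10, pow_mul, pow_mul]
        ring
      exact_mod_cast h9
    exact ⟨Or.inr (of_pow_eq (by omega) hcop h8), Or.inr (of_pow_eq (by omega) hcop.symm h8.symm)⟩
  · have w1d := Wx_deg (k := 0 + k) (c := c) (p := a + 2) (g d2) (g d1)
    have w3d := Wx_deg (k := 0 + k) (c := c) (p := b + 2) (g d2) (g d3)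
    rw [zero_add] at w1d w3d
    constructor
    · rcases Nat.lt_or_ge (2 * Φ + 1) (a + 2) with h | h
      · right
        obtain ⟨m, hm⟩ := dvd_of_eq n1 z3 hu (by omega) huv
        exact transfer hw h1 h3 hx1 hx3 hcop hm
      · left; exact h
    · rcases Nat.lt_or_ge (2 * Φ + 1) (b + 2) with h | h
      · right
        obtain ⟨m, hm⟩ := dvd_of_eq n3 z1 hv (by omega) huv.symm
        exact transfer hw h3 h1 hx3 hx1 hcop.symm hm
      · left; exact h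

end Pool.Agent.Run7.h777.FC
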