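import Mathlib
import Pool.Agent.H458.Sp.Reduce

/-!
Comparable positive integers are, up to a small one-sided error, multiples of a common large integer.
-/

set_option autoImplicit false

namespace Pool.Agent.Run7.h777.FC

open Finset

theorem dir (r ρ L : ℕ) (hρ : 1 ≤ ρ) (hL : 1 ≤ L) : ∃ Q : ℕ, ∀ (U : ℕ) (u : Fin (r + 1) → ℕ),
    1 ≤ U → (∀ i, U ≤ ρ * u i ∧ u i ≤ ρ * U) →
    ∃ f : ℕ, 1 ≤ f ∧ U ≤ Q * f ∧ ∃ m l : Fin (r + 1) → ℕ, ∀ i,
      u i + l i = f * m i ∧ L * l i ≤ f ∧ 1 ≤ m i ∧ ∀ j, m i ≤ 4 * ρ ^ 2 * m j := by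
  obtain ⟨K, hK⟩ : ∃ K, K = 4 * L * (2 * ρ ^ 2 + 1) := ⟨_, rfl⟩
  have hρ2 : ρ ≤ ρ ^ 2 := Nat.le_self_pow (by norm_num) ρ
  have hKρ : 4 * ρ ≤ K := by
    rw [hK]
    calc 4 * ρ ≤ 4 * (1 * (2 * ρ ^ 2 + 1)) := by omega
      _ ≤ 4 * (L * (2 * ρ ^ 2 + 1)) := by gcongr
      _ = _ := by ring
  have hK4 : 4 ≤ K := by omega
  obtain ⟨U₀, hU₀⟩ : ∃ U₀, U₀ = 4 * (K ^ (r + 1)) ^ 2 * L * ρ := ⟨_, rfl⟩
  refine ⟨U₀ + 2 * K ^ (r + 1), fun U u hU hu => ?_⟩
  rcases Nat.lt_or_ge U U₀ with hsm | hbig
  · refine ⟨1, le_rfl, by omega, u, fun _ => 0, fun i => ⟨by ring, by simp, ?_, fun j => ?_⟩⟩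
    · by_contra h0
      have h1 := (hu i).1
      have h2 : u i = 0 := by omega
      rw [h2] at h1; omega
    · have h1 := (hu i).2
      have h2 := (hu j).1
      calc u i ≤ ρ * U := h1
        _ ≤ ρ * (ρ * u j) := Nat.mul_le_mul_left _ h2
        _ = ρ ^ 2 * u j := by ring
        _ ≤ 4 * ρ ^ 2 * u j := Nat.mul_le_mul_right _ (by omega)
  · obtain ⟨q, hq1, hqK, v, hv⟩ := Pool.Agent.H458.Sp.dirichlet_vec K (by omega) U hU
      (fun i => (u i : ℤ))
    have hv1 : ∀ i, (K : ℤ) * (q * u i) ≤ K * (U * v i) + U ∧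
        (K : ℤ) * (U * v i) ≤ K * (q * u i) + U := by
      intro i
      have h1 := hv i
      have h2 : |((q : ℤ) * u i - U * v i) * K| ≤ U := by
        rw [abs_mul, Nat.abs_cast]; exact h1
      rw [abs_le] at h2
      constructor <;> linarith
    have hUz : (1 : ℤ) ≤ U := by exact_mod_cast hU
    have hqz : (1 : ℤ) ≤ q := by exact_mod_cast hq1
    have hKz : (4 : ℤ) ≤ K := by exact_mod_cast hK4
    have hρz : (1 : ℤ) ≤ ρ := by exact_mod_cast hρ
    have hKρz : 4 * (ρ : ℤ) ≤ K := by exact_mod_cast hKρ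
    have hlow : ∀ i, (U : ℤ) ≤ ρ * u i := fun i => by exact_mod_cast (hu i).1
    have hupp : ∀ i, (u i : ℤ) ≤ ρ * U := fun i => by exact_mod_cast (hu i).2
    -- `q ≤ 2 ρ v`
    have hvq : ∀ i, (q : ℤ) ≤ 2 * ρ * v i := by
      intro i
      have h1 := (hv1 i).1
      have h2 : (K : ℤ) * (q * U) ≤ (U : ℤ) * (ρ * K * v i + ρ) := by
        calc (K : ℤ) * (q * U) ≤ K * (q * (ρ * u i)) := by gcongr; exact hlow i
          _ = ρ * (K * (q * u i)) := by ring
          _ ≤ ρ * (K * (U * v i) + U) := by gcongr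
          _ = _ := by ring
      have h3 : (K : ℤ) * q ≤ ρ * K * v i + ρ := by
        have : (U : ℤ) * (K * q) ≤ U * (ρ * K * v i + ρ) := by linarith
        exact le_of_mul_le_mul_left this (by linarith)
      have h4 : 2 * (ρ : ℤ) ≤ K * q := by nlinarith
      have h5 : (K : ℤ) * q ≤ K * (2 * ρ * v i) := by nlinarith
      exact le_of_mul_le_mul_left h5 (by linarith)
    have hvpos : ∀ i, 1 ≤ v i := by
      intro i
      have h1 := hvq i
      by_contra h2
      have h3 : v i ≤ 0 := by omega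
      nlinarith
    have hvup : ∀ i, v i ≤ q * ρ := by
      intro i
      have h1 := (hv1 i).2
      have h2 : (U : ℤ) * (K * v i) ≤ U * (K * (q * ρ) + 1) := by
        calc (U : ℤ) * (K * v i) = K * (U * v i) := by ring
          _ ≤ K * (q * u i) + U := h1
          _ ≤ K * (q * (ρ * U)) + U := by gcongr; exact hupp i
          _ = _ := by ring
      have h3 : (K : ℤ) * v i ≤ K * (q * ρ) + 1 := le_of_mul_le_mul_left h2 (by linarith)
      by_contra h4
      have h5 : (q : ℤ) * ρ + 1 ≤ v i := by omega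
      nlinarith
    have hrat : ∀ i j, v i ≤ 2 * ρ ^ 2 * v j := by
      intro i j
      have h1 := hvup i
      have h2 := hvq j
      nlinarith
    obtain ⟨j, -, hj⟩ := exists_max_image univ (fun i => u i / (v i).toNat) univ_nonempty
    obtain ⟨f, hf⟩ : ∃ f, f = u j / (v j).toNat + 1 := ⟨_, rfl⟩
    have hto : ∀ i, ((v i).toNat : ℤ) = v i := fun i => Int.toNat_of_nonneg (by linarith [hvpos i])
    have hton : ∀ i, 1 ≤ (v i).toNat := fun i => by
      have := hto i; have := hvpos i; omega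
    have hfi : ∀ i, u i ≤ f * (v i).toNat := by
      intro i
      have h1 := hj i (mem_univ i)
      have h2 : u i < (u i / (v i).toNat + 1) * (v i).toNat := by
        rw [mul_comm]; exact Nat.lt_mul_div_succ _ (hton i)
      have h3 : (u i / (v i).toNat + 1) * (v i).toNat ≤ f * (v i).toNat :=
        Nat.mul_le_mul_right _ (by omega)
      omega
    have hfj : (f : ℤ) * v j ≤ u j + v j := by
      have h1 : u j / (v j).toNat * (v j).toNat ≤ u j := Nat.div_mul_le_self _ _
      have h2 : f * (v j).toNat ≤ u j + (v j).toNat := by rw [hf, add_mul, one_mul]; omega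
      have h3 : (f : ℤ) * ((v j).toNat : ℤ) ≤ u j + ((v j).toNat : ℤ) := by exact_mod_cast h2
      rwa [hto] at h3
    have hfz : ∀ i, (u i : ℤ) ≤ f * v i := by
      intro i
      have h3 : (u i : ℤ) ≤ f * ((v i).toNat : ℤ) := by exact_mod_cast hfi i
      rwa [hto] at h3
    have hUf : (U : ℤ) ≤ 2 * q * f := by
      have h1 := (hv1 j).2
      have h2 := hfz j
      have h3 := hvpos j
      have h4 : (v j) * ((K - 1) * U) ≤ (v j) * (K * q * f) := by
        have h5 : (K : ℤ) * (q * u j) ≤ K * (q * (f * v j)) := by gcongr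
        have h6 : (U : ℤ) * 1 ≤ U * v j := by gcongr
        linarith
      have h5 : ((K : ℤ) - 1) * U ≤ K * q * f := le_of_mul_le_mul_left h4 (by linarith)
      have h6 : (K : ℤ) * U ≤ K * (2 * q * f) := by nlinarith
      exact le_of_mul_le_mul_left h6 (by linarith)
    have hbigz : 4 * (q : ℤ) ^ 2 * L * ρ ≤ U := by
      have h1 : 4 * q ^ 2 * L * ρ ≤ U₀ := by
        rw [hU₀]; gcongr
      exact_mod_cast h1.trans hbig
    refine ⟨f, by rw [hf]; exact Nat.le_add_left _ _, ?_, fun i => (v i).toNat, fun i => f * (v i).toNat - u i, fun i => ?_⟩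
    · have h1 : U ≤ 2 * q * f := by exact_mod_cast hUf
      calc U ≤ 2 * q * f := h1
        _ ≤ 2 * K ^ (r + 1) * f := by gcongr
        _ ≤ _ := Nat.mul_le_mul_right _ (by omega)
    · have h1 := hfi i
      refine ⟨by show u i + (f * (v i).toNat - u i) = f * (v i).toNat; omega, ?_, hton i, fun j' => ?_⟩
      · -- the error
        have h2 : ((f * (v i).toNat - u i : ℕ) : ℤ) = f * v i - u i := by
          rw [Nat.cast_sub h1]; push_cast; rw [hto]
        have h3 : (L : ℤ) * (f * v i - u i) ≤ f := by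
          have hj1 := hvpos j
          have hi1 := hvpos i
          have a1 := (hv1 j).1
          have a2 := (hv1 i).2
          have a3 := hrat i j
          have a4 := hvup i
          -- multiply by `q K v j`
          have b1 : (q : ℤ) * K * ((f * v i - u i) * v j) ≤
              U * v i + U * v j + q * K * (v i * v j) := by
            have c1 : (q : ℤ) * K * (f * v j) * v i ≤ (q : ℤ) * K * (u j + v j) * v i :=
              mul_le_mul_of_nonneg_right (mul_le_mul_of_nonneg_left hfj (by positivity)) (by linarith)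
            have c2 : (K : ℤ) * (q * u j) * v i ≤ (K * (U * v j) + U) * v i := by gcongr
            have c3 : (K : ℤ) * (U * v i) * v j ≤ (K * (q * u i) + U) * v j := by gcongr
            linarith
          have b2 : (U : ℤ) * v i + U * v j + q * K * (v i * v j) ≤
              (U * (2 * ρ ^ 2 + 1) + q ^ 2 * K * ρ) * v j := by
            have c1 : (U : ℤ) * v i ≤ U * (2 * ρ ^ 2 * v j) := by gcongr
            have c2 : (q : ℤ) * K * (v i * v j) ≤ q * K * (q * ρ * v j) := by gcongr
            linarith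
          have b3 : (q : ℤ) * K * (f * v i - u i) ≤ U * (2 * ρ ^ 2 + 1) + q ^ 2 * K * ρ := by
            have : (v j) * ((q : ℤ) * K * (f * v i - u i)) ≤
                v j * (U * (2 * ρ ^ 2 + 1) + q ^ 2 * K * ρ) := by linarith
            exact le_of_mul_le_mul_left this (by linarith)
          have hKe : (K : ℤ) = 4 * L * (2 * ρ ^ 2 + 1) := by rw [hK]; push_cast; ring
          have hLz : (1 : ℤ) ≤ L := by exact_mod_cast hL
          have b4 : 4 * ((L : ℤ) * (U * (2 * ρ ^ 2 + 1))) = K * U := by rw [hKe]; ring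
          have b5 : 4 * ((L : ℤ) * (q ^ 2 * K * ρ)) ≤ K * U := by
            have := mul_le_mul_of_nonneg_left hbigz (by linarith : (0 : ℤ) ≤ K)
            linarith
          have b6 : (K : ℤ) * U ≤ K * (2 * q * f) := by gcongr
          have b7 : (L : ℤ) * (q * K * (f * v i - u i)) ≤
              L * (U * (2 * ρ ^ 2 + 1) + q ^ 2 * K * ρ) := by gcongr
          have b8 : (q * K : ℤ) * (L * (f * v i - u i)) ≤ q * K * f := by linarith
          exact le_of_mul_le_mul_left b8 (by positivity)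
        have h4 : ((L * (f * (v i).toNat - u i) : ℕ) : ℤ) ≤ f := by
          rw [Nat.cast_mul, h2]; exact h3
        exact_mod_cast h4
      · have h2 := hrat i j'
        have h3 : ((v i).toNat : ℤ) ≤ 2 * ρ ^ 2 * ((v j').toNat : ℤ) := by rw [hto, hto]; exact h2
        have h4 : (v i).toNat ≤ 2 * ρ ^ 2 * (v j').toNat := by exact_mod_cast h3
        refine h4.trans (Nat.mul_le_mul_right _ (by omega))

end Pool.Agent.Run7.h777.FC
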