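import Mathlib

/-!
Low coefficients of powers of polynomials with constant term `1`, and polynomials with slowly growing
coefficients which almost vanish at the reciprocal of a large integer.
-/

set_option autoImplicit false

namespace Pool.Agent.Run7.h777.FC

open Finset Polynomial

/-- coefficients of a power of a polynomial with constant term `1` and no small terms -/
theorem pow_coeff {P : ℤ[X]} {μ B : ℕ} (hμ : 1 ≤ μ) (hB : 1 ≤ B) (h0 : P.coeff 0 = 1)
    (hz : ∀ i, 1 ≤ i → i < μ → P.coeff i = 0) (hs : ∀ n, ∑ i ∈ range n, |P.coeff (i + 1)| ≤ (B : ℤ))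
    (p : ℕ) (hp : 1 ≤ p) (i : ℕ) : |(P ^ p).coeff i| ≤ ((p * B : ℕ) : ℤ) ^ (i / μ) := by
  induction p, hp using Nat.le_induction generalizing i with
  | base =>
    rw [pow_one, one_mul]
    rcases Nat.eq_zero_or_pos i with rfl | hi0
    · rw [h0]; simp
    rcases Nat.lt_or_ge i μ with hi | hi
    · rw [hz i hi0 hi, abs_zero]; positivity
    · have h1 : |P.coeff i| ≤ B := by
        have h2 := hs i
        have h3 := single_le_sum (f := fun i => |P.coeff (i + 1)|) (fun _ _ => abs_nonneg _)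
          (mem_range.2 (show i - 1 < i by omega))
        rw [show i - 1 + 1 = i by omega] at h3
        exact h3.trans h2
      refine h1.trans ?_
      exact_mod_cast Nat.le_self_pow (Nat.div_pos hi hμ).ne' B
  | succ p hp ih =>
    have hH : 1 ≤ p * B := Nat.mul_pos hp hB
    rw [pow_succ', coeff_mul, Finset.Nat.sum_antidiagonal_eq_sum_range_succ
      (fun u v => P.coeff u * (P ^ p).coeff v), sum_range_succ']
    rw [h0, one_mul, Nat.sub_zero]
    rcases Nat.lt_or_ge i μ with hi | hi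
    · have h1 : ∑ k ∈ range i, P.coeff (k + 1) * (P ^ p).coeff (i - (k + 1)) = 0 := by
        apply sum_eq_zero
        intro k hk
        rw [mem_range] at hk
        rw [hz (k + 1) (by omega) (by omega), zero_mul]
      rw [h1, zero_add]
      have h2 := ih i
      rw [Nat.div_eq_of_lt hi, pow_zero] at h2 ⊢
      exact h2
    · obtain ⟨t, ht⟩ : ∃ t, i / μ = t + 1 :=
        Nat.exists_eq_succ_of_ne_zero (Nat.div_pos hi hμ).ne'
      have h1 : ∀ k ∈ range i, |P.coeff (k + 1) * (P ^ p).coeff (i - (k + 1))| ≤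
          |P.coeff (k + 1)| * ((p * B : ℕ) : ℤ) ^ t := by
        intro k _
        rw [abs_mul]
        rcases Nat.lt_or_ge (k + 1) μ with hk | hk
        · rw [hz (k + 1) (by omega) hk]; simp
        · have h3 : (i - (k + 1)) / μ ≤ t := by
            have h4 : (i - (k + 1)) / μ ≤ (i - μ) / μ := Nat.div_le_div_right (by omega)
            have h5 : i / μ = (i - μ) / μ + 1 := by
              rw [← Nat.add_div_right _ (by omega : 0 < μ)]
              congr 1; omega
            omega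
          apply mul_le_mul_of_nonneg_left _ (abs_nonneg _)
          refine (ih _).trans ?_
          exact_mod_cast Nat.pow_le_pow_right hH h3
      have h2 : |∑ k ∈ range i, P.coeff (k + 1) * (P ^ p).coeff (i - (k + 1))| ≤
          (B : ℤ) * ((p * B : ℕ) : ℤ) ^ t := by
        refine (abs_sum_le_sum_abs _ _).trans ((sum_le_sum h1).trans ?_)
        rw [← sum_mul]
        exact mul_le_mul_of_nonneg_right (hs i) (by positivity)
      have h3 := ih i
      rw [ht] at h3 ⊢
      calc _ ≤ (B : ℤ) * ((p * B : ℕ) : ℤ) ^ t + ((p * B : ℕ) : ℤ) ^ (t + 1) :=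
            (abs_add_le _ _).trans (add_le_add h2 h3)
        _ = ((p * B : ℕ) : ℤ) ^ t * (((p + 1) * B : ℕ) : ℤ) := by push_cast; ring
        _ ≤ (((p + 1) * B : ℕ) : ℤ) ^ t * (((p + 1) * B : ℕ) : ℤ) := by
            apply mul_le_mul_of_nonneg_right _ (by positivity)
            exact_mod_cast Nat.pow_le_pow_left (Nat.mul_le_mul_right _ (by omega)) t
        _ = _ := by rw [pow_succ]

theorem eval_sum (Q : ℤ[X]) (t : ℝ) :
    aeval t Q = (Q.coeff 0 : ℝ) + ∑ i ∈ range Q.natDegree, (Q.coeff (i + 1) : ℝ) * t ^ (i + 1) := by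
  rw [aeval_eq_sum_range, sum_range_succ', add_comm]
  simp [zsmul_eq_mul]

theorem tail {Q : ℤ[X]} {A h t : ℝ} (ht : 0 ≤ t) (hA : 0 ≤ A) (hh : 0 ≤ h) (hht : h * t ≤ 1 / 2)
    (hc : ∀ i, |(Q.coeff i : ℝ)| ≤ A * h ^ i) : |aeval t Q - (Q.coeff 0 : ℝ)| ≤ 2 * A * (h * t) := by
  rw [eval_sum, add_sub_cancel_left]
  have h1 : ∀ i ∈ range Q.natDegree, |(Q.coeff (i + 1) : ℝ) * t ^ (i + 1)| ≤
      A * (h * t) * (1 / 2) ^ i := by
    intro i _
    rw [abs_mul, abs_pow, abs_of_nonneg ht]
    calc |(Q.coeff (i + 1) : ℝ)| * t ^ (i + 1) ≤ A * h ^ (i + 1) * t ^ (i + 1) :=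
          mul_le_mul_of_nonneg_right (hc _) (by positivity)
      _ = A * (h * t) * (h * t) ^ i := by rw [mul_pow, pow_succ, pow_succ]; ring
      _ ≤ A * (h * t) * (1 / 2) ^ i := by gcongr
  refine (abs_sum_le_sum_abs _ _).trans ((sum_le_sum h1).trans ?_)
  rw [← mul_sum]
  have h2 : ∑ i ∈ range Q.natDegree, (1 / 2 : ℝ) ^ i ≤ 2 := by
    have := (summable_geometric_two).sum_le_tsum (range Q.natDegree) (fun _ _ => by positivity)
    rwa [tsum_geometric_two] at this
  have h3 : 0 ≤ A * (h * t) := by positivity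
  nlinarith

theorem low {P : ℤ[X]} {μ C H K W : ℕ} (hμ : 1 ≤ μ) (hH : 1 ≤ H) (hC : 1 ≤ C)
    (hW : 8 * C * H ^ (K / μ + 1) ≤ W) (hc : ∀ i, |P.coeff i| ≤ (C : ℤ) * (H : ℤ) ^ (i / μ))
    (hP : |aeval (1 / (W : ℝ)) P| ≤ (1 / (W : ℝ)) ^ K) : (X : ℤ[X]) ^ K ∣ P := by
  have hH1 : 1 ≤ H ^ (K / μ + 1) := Nat.one_le_pow _ _ hH
  have hW8 : 8 ≤ W := by nlinarith
  have hWr : (8 : ℝ) ≤ W := by exact_mod_cast hW8
  set t : ℝ := 1 / (W : ℝ) with ht
  have ht0 : 0 < t := by positivity
  have htW : t * W = 1 := by rw [ht]; field_simp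
  rw [X_pow_dvd_iff]
  intro d
  induction d using Nat.strong_induction_on with
  | _ d ih =>
    intro hd
    obtain ⟨Q, hQ⟩ := X_pow_dvd_iff.2 (fun j (hj : j < d) => ih j hj (by omega))
    have hQc : ∀ i, Q.coeff i = P.coeff (i + d) := by
      intro i; rw [hQ, coeff_X_pow_mul]
    have h1 : aeval t P = t ^ d * aeval t Q := by rw [hQ]; simp
    have h2 : |aeval t Q| ≤ t := by
      have h3 : t ^ d * |aeval t Q| ≤ t ^ d * t := by
        rw [← abs_of_pos (pow_pos ht0 d), ← abs_mul, ← h1, abs_of_pos (pow_pos ht0 d), ← pow_succ]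
        refine hP.trans ?_
        have h20 : t ≤ 1 := by rw [ht, div_le_one (by positivity)]; linarith
        exact pow_le_pow_of_le_one ht0.le h20 (show d + 1 ≤ K from hd)
      exact le_of_mul_le_mul_left h3 (pow_pos ht0 d)
    have h4 : ∀ i, |(Q.coeff i : ℝ)| ≤ ((C : ℝ) * (H : ℝ) ^ (K / μ)) * (H : ℝ) ^ i := by
      intro i
      have h5 := hc (i + d)
      rw [← hQc] at h5
      have h6 : |(Q.coeff i : ℝ)| ≤ (C : ℝ) * (H : ℝ) ^ ((i + d) / μ) := by exact_mod_cast h5
      refine h6.trans ?_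
      rw [mul_assoc, ← pow_add]
      apply mul_le_mul_of_nonneg_left _ (by positivity)
      apply pow_le_pow_right₀ (by exact_mod_cast hH)
      have h7 : (i + d) / μ ≤ (i * μ + K) / μ := Nat.div_le_div_right (by nlinarith)
      rw [Nat.add_comm (i * μ), Nat.add_mul_div_right _ _ (by omega : 0 < μ)] at h7
      exact h7
    have h8 : (H : ℝ) * t ≤ 1 / 2 := by
      have h9 : H ≤ H ^ (K / μ + 1) := Nat.le_self_pow (Nat.succ_ne_zero _) H
      have h10 : 2 * H ≤ W := by nlinarith
      have h11 : 2 * (H : ℝ) ≤ W := by exact_mod_cast h10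
      rw [ht, mul_one_div, div_le_iff₀ (by positivity)]; linarith
    have h12 := tail ht0.le (by positivity) (by positivity : (0 : ℝ) ≤ H) h8 h4
    have h13 : 2 * ((C : ℝ) * (H : ℝ) ^ (K / μ)) * (H * t) ≤ 1 / 4 := by
      have h14 : (8 : ℝ) * C * H ^ (K / μ + 1) ≤ W := by exact_mod_cast hW
      have h15 : 8 * (C : ℝ) * H ^ (K / μ + 1) * t ≤ 1 := by
        rw [← htW, mul_comm t]; exact mul_le_mul_of_nonneg_right h14 ht0.le
      rw [pow_succ] at h15
      nlinarith
    have h16 : t ≤ 1 / 8 := by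
      rw [ht]; exact one_div_le_one_div_of_le (by norm_num) hWr
    have h17 : |(Q.coeff 0 : ℝ)| < 1 := by
      have := abs_le.1 h12
      have := abs_le.1 h2
      rw [abs_lt]; constructor <;> linarith
    have h18 : |Q.coeff 0| < 1 := by exact_mod_cast h17
    have h19 : Q.coeff 0 = 0 := Int.abs_lt_one_iff.1 h18
    rw [← h19, hQc, zero_add]

end Pool.Agent.Run7.h777.FC
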