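import Mathlib
import Pool.Agent.Run7.h777.FC.Low
import Pool.Agent.Run7.h777.FC.Dir

/-!
The polynomials attached to numbers with few digits, and the sizes of the three terms.
-/

set_option autoImplicit false

namespace Pool.Agent.Run7.h777.FC

open Finset Polynomial

theorem dir' (D ρ L : ℕ) (hρ : 1 ≤ ρ) (hL : 1 ≤ L) : ∃ Q : ℕ, ∀ (U : ℕ)
    (u : Option (Fin 3 × Fin D) → ℕ), 1 ≤ U → (∀ i, U ≤ ρ * u i ∧ u i ≤ ρ * U) →
    ∃ f : ℕ, 1 ≤ f ∧ U ≤ Q * f ∧ ∃ m l : Option (Fin 3 × Fin D) → ℕ, ∀ i,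
      u i + l i = f * m i ∧ L * l i ≤ f ∧ 1 ≤ m i := by
  obtain ⟨Q, hQ⟩ := dir (3 * D) ρ L hρ hL
  refine ⟨Q, fun U u hU hu => ?_⟩
  have e : Option (Fin 3 × Fin D) ≃ Fin (3 * D + 1) := Fintype.equivFinOfCardEq (by simp)
  obtain ⟨f, hf, hUf, m, l, hml⟩ := hQ U (fun i => u (e.symm i)) hU (fun i => hu _)
  refine ⟨f, hf, hUf, fun i => m (e i), fun i => l (e i), fun i => ?_⟩
  obtain ⟨h1, h2, h3, -⟩ := hml (e i)
  refine ⟨?_, h2, h3⟩
  rw [← h1, e.symm_apply_apply]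

/-- the polynomial with constant term `1` and given other terms -/
noncomputable def pol {D : ℕ} (b : Fin D → ℤ) (m : Fin D → ℕ) : ℤ[X] :=
  1 + ∑ i, C (b i) * X ^ (m i)

theorem pol_coeff {D : ℕ} (b : Fin D → ℤ) (m : Fin D → ℕ) (j : ℕ) (hj : 1 ≤ j) :
    (pol b m).coeff j = ∑ i, if j = m i then b i else 0 := by
  unfold pol
  rw [coeff_add, coeff_one, if_neg (by omega), zero_add, finsetSum_coeff]
  apply sum_congr rfl
  intro i _
  rw [coeff_C_mul, coeff_X_pow]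
  split_ifs <;> simp

theorem pol_zero {D : ℕ} {b : Fin D → ℤ} {m : Fin D → ℕ} (hm : ∀ i, 1 ≤ m i) :
    (pol b m).coeff 0 = 1 := by
  unfold pol
  rw [coeff_add, coeff_one, if_pos rfl, finsetSum_coeff]
  rw [sum_eq_zero, add_zero]
  intro i _
  rw [coeff_C_mul, coeff_X_pow, if_neg (by have := hm i; omega), mul_zero]

theorem pol_low {D μ : ℕ} {b : Fin D → ℤ} {m : Fin D → ℕ} (hm : ∀ i, μ ≤ m i) (j : ℕ) (hj : 1 ≤ j)
    (hjμ : j < μ) : (pol b m).coeff j = 0 := by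
  rw [pol_coeff b m j hj]
  apply sum_eq_zero
  intro i _
  rw [if_neg (by have := hm i; omega)]

theorem pol_sum {D G : ℕ} {b : Fin D → ℤ} {m : Fin D → ℕ} (hb : ∀ i, |b i| ≤ G) (n : ℕ) :
    ∑ j ∈ range n, |(pol b m).coeff (j + 1)| ≤ ((D * G : ℕ) : ℤ) := by
  calc ∑ j ∈ range n, |(pol b m).coeff (j + 1)| ≤
        ∑ j ∈ range n, ∑ i, if j + 1 = m i then |b i| else 0 := by
        apply sum_le_sum
        intro j _
        rw [pol_coeff b m (j + 1) (by omega)]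
        refine (abs_sum_le_sum_abs _ _).trans (sum_le_sum fun i _ => ?_)
        split_ifs <;> simp
    _ = ∑ i, ∑ j ∈ range n, if j + 1 = m i then |b i| else 0 := sum_comm
    _ ≤ ∑ _i : Fin D, (G : ℤ) := by
        apply sum_le_sum
        intro i _
        rcases Nat.eq_zero_or_pos (m i) with h0 | h0
        · rw [sum_eq_zero]
          · positivity
          · intro j _
            rw [if_neg (by omega)]
        · have h1 : ∀ j ∈ range n, (if j + 1 = m i then |b i| else 0) =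
              if m i - 1 = j then |b i| else 0 := by
            intro j _
            by_cases h : j + 1 = m i
            · rw [if_pos h, if_pos (by omega)]
            · rw [if_neg h, if_neg (by omega)]
          rw [sum_congr rfl h1, sum_ite_eq]
          split_ifs
          · exact hb i
          · positivity
    _ = ((D * G : ℕ) : ℤ) := by simp

theorem pol_deg {D Φ : ℕ} {b : Fin D → ℤ} {m : Fin D → ℕ} (hm : ∀ i, m i ≤ Φ) :
    (pol b m).natDegree ≤ Φ := by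
  unfold pol
  refine (natDegree_add_le _ _).trans (max_le (by simp) ?_)
  apply natDegree_sum_le_of_forall_le
  intro i _
  exact (natDegree_C_mul_X_pow_le _ _).trans (hm i)

theorem pol_eval {D : ℕ} (b : Fin D → ℤ) (m : Fin D → ℕ) (t : ℝ) :
    aeval t (pol b m) = 1 + ∑ i, (b i : ℝ) * t ^ (m i) := by
  unfold pol
  rw [map_add, map_one, map_sum]
  congr 1
  apply sum_congr rfl
  intro i _
  simp

theorem pol_pow {D G μ E p : ℕ} {b : Fin D → ℤ} {m : Fin D → ℕ} (hμ : 1 ≤ μ) (hD : 1 ≤ D)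
    (hG : 1 ≤ G) (hb : ∀ i, |b i| ≤ G) (hm : ∀ i, μ ≤ m i) (hp : 1 ≤ p) (hpE : p ≤ E) (j : ℕ) :
    |((pol b m) ^ p).coeff j| ≤ ((E * D * G : ℕ) : ℤ) ^ (j / μ) := by
  have h1 := pow_coeff (P := pol b m) hμ (Nat.mul_pos hD hG) (pol_zero fun i => hμ.trans (hm i))
    (fun i h1 h2 => pol_low hm i h1 h2) (fun n => pol_sum hb n) p hp j
  refine h1.trans ?_
  have h2 : p * (D * G) ≤ E * D * G := by
    rw [mul_assoc]; exact Nat.mul_le_mul_right _ hpE
  exact_mod_cast Nat.pow_le_pow_left h2 _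

/-- powers of numbers close to `1` -/
theorem near_one {s ε E : ℝ} {n : ℕ} (hε : 0 ≤ ε) (hs : |s - 1| ≤ ε) (hn : (n : ℝ) ≤ E)
    (hE : E * ε ≤ 1 / 16) (hε1 : ε ≤ 1 / 16) : |s ^ n - 1| ≤ 2 * (E * ε) := by
  rw [abs_le] at hs
  have hn0 : (0 : ℝ) ≤ n := Nat.cast_nonneg n
  have hnε : (n : ℝ) * ε ≤ E * ε := mul_le_mul_of_nonneg_right hn hε
  have h1 : 1 - n * ε ≤ (1 - ε) ^ n := by
    have := one_add_mul_le_pow (a := -ε) (by linarith) n
    rw [← sub_eq_add_neg] at this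
    linarith
  have h2 : (1 - ε) ^ n ≤ s ^ n := pow_le_pow_left₀ (by linarith) (by linarith) n
  have h3 : s ^ n ≤ (1 + ε) ^ n := pow_le_pow_left₀ (by linarith) (by linarith) n
  have h4 : (1 + ε) ^ n * (1 - ε) ^ n ≤ 1 := by
    rw [← mul_pow]
    apply pow_le_one₀ <;> nlinarith
  have h5 : (0 : ℝ) ≤ (1 + ε) ^ n := by positivity
  have h6 : (1 + ε) ^ n * (1 - n * ε) ≤ 1 := (mul_le_mul_of_nonneg_left h1 h5).trans h4
  have h8 : 0 ≤ (n : ℝ) * ε := by positivity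
  have h7 : (1 + ε) ^ n ≤ 1 + 2 * (n * ε) := by
    by_contra hcon
    push Not at hcon
    nlinarith
  rw [abs_le]
  constructor <;> linarith

/-- sizes of the three terms -/
theorem sizes {w n0 n1 n2 : ℕ} {S0 S1 S2 η : ℝ} (hw : 2 ≤ w) (hη : 2 * η ≤ 1 / 8)
    (h0 : |S0 - 1| ≤ 2 * η) (h1 : |S1 - 1| ≤ 2 * η) (h2 : |S2 - 1| ≤ 2 * η)
    (heq : S0 * (w : ℝ) ^ n0 + S1 * (w : ℝ) ^ n1 = S2 * (w : ℝ) ^ n2)
    (hle : S1 * (w : ℝ) ^ n1 ≤ S0 * (w : ℝ) ^ n0) :
    ∃ k, n0 = n1 + k ∧ ((S0 + S1 * (1 / (w : ℝ)) ^ k = S2 ∧ 1 ≤ 8 * η * (w : ℝ) ^ k) ∨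
      (S0 + S1 = 2 * S2)) := by
  rw [abs_le] at h0 h1 h2
  have hwr : (2 : ℝ) ≤ w := by exact_mod_cast hw
  have hP : ∀ n, (0 : ℝ) < (w : ℝ) ^ n := fun n => by positivity
  have a1 : n1 ≤ n0 := by
    by_contra hcon
    push Not at hcon
    have h3 : (w : ℝ) ^ n0 * 2 ≤ (w : ℝ) ^ n1 := by
      calc (w : ℝ) ^ n0 * 2 ≤ (w : ℝ) ^ n0 * w := by gcongr
        _ = (w : ℝ) ^ (n0 + 1) := (pow_succ _ _).symm
        _ ≤ (w : ℝ) ^ n1 := pow_le_pow_right₀ (by linarith) hcon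
    have h4 := hP n0
    have h5 := hP n1
    nlinarith
  have a2 : n0 ≤ n2 := by
    by_contra hcon
    push Not at hcon
    have h3 : (w : ℝ) ^ n2 * 2 ≤ (w : ℝ) ^ n0 := by
      calc (w : ℝ) ^ n2 * 2 ≤ (w : ℝ) ^ n2 * w := by gcongr
        _ = (w : ℝ) ^ (n2 + 1) := (pow_succ _ _).symm
        _ ≤ (w : ℝ) ^ n0 := pow_le_pow_right₀ (by linarith) hcon
    have h4 := hP n0
    have h5 := hP n1
    have h6 := hP n2
    nlinarith
  obtain ⟨k, rfl⟩ := Nat.exists_eq_add_of_le a1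
  have a3 : n2 ≤ n1 + k + 1 := by
    by_contra hcon
    push Not at hcon
    have h3 : (w : ℝ) ^ (n1 + k) * 4 ≤ (w : ℝ) ^ n2 := by
      calc (w : ℝ) ^ (n1 + k) * 4 ≤ (w : ℝ) ^ (n1 + k) * w ^ 2 := by
            apply mul_le_mul_of_nonneg_left _ (hP _).le
            nlinarith
        _ = (w : ℝ) ^ (n1 + k + 2) := (pow_add _ _ _).symm
        _ ≤ (w : ℝ) ^ n2 := pow_le_pow_right₀ (by linarith) hcon
    have h4 := hP (n1 + k)
    have h5 := hP n1
    have h6 := hP n2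
    nlinarith
  refine ⟨k, rfl, ?_⟩
  have hk : (1 / (w : ℝ)) ^ k * (w : ℝ) ^ k = 1 := by
    rw [← mul_pow, one_div, inv_mul_cancel₀ (by positivity), one_pow]
  have hk0 : 0 < (1 / (w : ℝ)) ^ k := by positivity
  have hn1 := hP n1
  rcases Nat.lt_or_ge (n1 + k) n2 with h | h
  · right
    have e2 : n2 = n1 + k + 1 := by omega
    subst e2
    have h3 : S0 * (w : ℝ) ^ k + S1 = S2 * (w : ℝ) ^ k * w := by
      have : (w : ℝ) ^ n1 * (S0 * (w : ℝ) ^ k + S1) = (w : ℝ) ^ n1 * (S2 * (w : ℝ) ^ k * w) := by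
        rw [pow_add, pow_succ, pow_add] at heq
        linarith
      exact mul_left_cancel₀ (hP n1).ne' this
    have h4 : S1 ≤ S0 * (w : ℝ) ^ k := by
      have : (w : ℝ) ^ n1 * S1 ≤ (w : ℝ) ^ n1 * (S0 * (w : ℝ) ^ k) := by
        rw [pow_add] at hle
        linarith
      exact le_of_mul_le_mul_left this (hP n1)
    have h5 : S2 * w ≤ 2 * S0 := by
      have : (w : ℝ) ^ k * (S2 * w) ≤ (w : ℝ) ^ k * (2 * S0) := by linarith
      exact le_of_mul_le_mul_left this (hP k)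
    have h6 : w < 3 := by
      by_contra h7
      push Not at h7
      have : (3 : ℝ) ≤ w := by exact_mod_cast h7
      nlinarith
    have h7 : w = 2 := by omega
    subst h7
    have h8 : k = 0 := by
      by_contra h9
      have h10 : (2 : ℝ) ≤ (2 : ℝ) ^ k := le_self_pow₀ (by norm_num) h9
      push_cast at h3
      nlinarith
    subst h8
    push_cast at h3
    linarith
  · left
    have e2 : n2 = n1 + k := by omega
    subst e2
    have h3 : S0 * (w : ℝ) ^ k + S1 = S2 * (w : ℝ) ^ k := by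
      have : (w : ℝ) ^ n1 * (S0 * (w : ℝ) ^ k + S1) = (w : ℝ) ^ n1 * (S2 * (w : ℝ) ^ k) := by
        rw [pow_add] at heq
        linarith
      exact mul_left_cancel₀ (hP n1).ne' this
    constructor
    · have : (w : ℝ) ^ k * (S0 + S1 * (1 / (w : ℝ)) ^ k) = (w : ℝ) ^ k * S2 := by
        have h4 : (w : ℝ) ^ k * (S0 + S1 * (1 / (w : ℝ)) ^ k) =
          S0 * (w : ℝ) ^ k + S1 * ((1 / (w : ℝ)) ^ k * (w : ℝ) ^ k) := by ring
        rw [h4, hk]; linarith
      exact mul_left_cancel₀ (hP k).ne' this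
    · have h4 : S1 = (S2 - S0) * (w : ℝ) ^ k := by linarith
      have h5 : (S2 - S0) * (w : ℝ) ^ k ≤ 4 * η * (w : ℝ) ^ k :=
        mul_le_mul_of_nonneg_right (by linarith) (hP k).le
      linarith

end Pool.Agent.Run7.h777.FC
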