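import Mathlib
import Pool.Agent.Run7.h777.FC.Poly
import Pool.Agent.Run7.h777.FC.Core

/-!
Bounded exponents when the bases have few digits, an isolated leading digit, and are large compared
with the exponents and the digits.
-/

set_option autoImplicit false

namespace Pool.Agent.Run7.h777.FC

open Finset Polynomial

/-- leading digit `1` in position `a`, further digits `c i` in positions `e i` far below `a` -/
structure Dig (w D R B x a : ℕ) (e : Fin D → ℕ) (c : Fin D → ℤ) : Prop where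
  he : ∀ i, e i ≤ a ∧ a ≤ R * (a - e i)
  hc : ∀ i, |c i| ≤ B
  hx : (x : ℤ) = (w : ℤ) ^ a + ∑ i, c i * (w : ℤ) ^ (e i)

theorem Dig.close {w D R B x a : ℕ} {e : Fin D → ℕ} {c : Fin D → ℤ} (h : Dig w D R B x a e c)
    (hw : 1 ≤ w) {g : ℕ} (hg : ∀ i, g ≤ a - e i) :
    |(x : ℤ) - (w : ℤ) ^ a| * (w : ℤ) ^ g ≤ D * B * (w : ℤ) ^ a := by
  have hwz : (1 : ℤ) ≤ w := by exact_mod_cast hw
  rw [h.hx, add_sub_cancel_left]
  calc |∑ i, c i * (w : ℤ) ^ (e i)| * (w : ℤ) ^ g ≤ (∑ i, |c i * (w : ℤ) ^ (e i)|) * (w : ℤ) ^ g :=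
        mul_le_mul_of_nonneg_right (abs_sum_le_sum_abs _ _) (by positivity)
    _ = ∑ i, |c i * (w : ℤ) ^ (e i)| * (w : ℤ) ^ g := sum_mul _ _ _
    _ ≤ ∑ _i : Fin D, (B : ℤ) * (w : ℤ) ^ a := by
        apply sum_le_sum
        intro i _
        rw [abs_mul, abs_of_nonneg (pow_nonneg (by linarith : (0 : ℤ) ≤ w) (e i)), mul_assoc, ← pow_add]
        have h1 := (h.he i).1
        have h2 := hg i
        exact mul_le_mul (h.hc i) (pow_le_pow_right₀ hwz (by omega)) (by positivity) (by positivity)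
    _ = D * B * (w : ℤ) ^ a := by simp; ring

theorem Dig.eval {w D R B x a f : ℕ} {e : Fin D → ℕ} {c : Fin D → ℤ} (h : Dig w D R B x a e c)
    (hw : 1 ≤ w) {m l : Fin D → ℕ} (hml : ∀ i, a - e i + l i = f * m i) :
    (x : ℝ) = (w : ℝ) ^ a * aeval (1 / ((w ^ f : ℕ) : ℝ)) (pol (fun i => c i * (w : ℤ) ^ (l i)) m) := by
  have hwr : (0 : ℝ) < w := by exact_mod_cast hw
  rw [pol_eval]
  have h1 : (x : ℝ) = (w : ℝ) ^ a + ∑ i, (c i : ℝ) * (w : ℝ) ^ (e i) := by exact_mod_cast h.hx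
  rw [h1, mul_add, mul_one, mul_sum]
  congr 1
  apply sum_congr rfl
  intro i _
  push_cast
  have h2 := (h.he i).1
  have h3 := hml i
  have h4 : (w : ℝ) ^ a * (w : ℝ) ^ (l i) = (w : ℝ) ^ (e i) * (w : ℝ) ^ (f * m i) := by
    rw [← pow_add, ← pow_add]; congr 1; omega
  have h5 : (w : ℝ) ^ (f * m i) * (1 / (w : ℝ) ^ f) ^ (m i) = 1 := by
    rw [pow_mul, ← mul_pow, mul_one_div_cancel (by positivity), one_pow]
  calc (c i : ℝ) * (w : ℝ) ^ (e i) = c i * ((w : ℝ) ^ (e i) *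
        ((w : ℝ) ^ (f * m i) * (1 / (w : ℝ) ^ f) ^ (m i))) := by rw [h5, mul_one]
    _ = c i * (((w : ℝ) ^ (e i) * (w : ℝ) ^ (f * m i)) * (1 / (w : ℝ) ^ f) ^ (m i)) := by ring
    _ = c i * (((w : ℝ) ^ a * (w : ℝ) ^ (l i)) * (1 / (w : ℝ) ^ f) ^ (m i)) := by rw [h4]
    _ = _ := by ring

/-- bounded exponents of one outer term give bounded exponents -/
theorem all_of_one {N R T : ℕ} {x p : Fin 3 → ℕ} (hN : 2 ≤ N) (hxN : ∀ j, x j ≤ N ∧ N ≤ x j ^ R)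
    (heq : x 0 ^ p 0 + x 1 ^ p 1 = x 2 ^ p 2) (hle : x 1 ^ p 1 ≤ x 0 ^ p 0)
    (h : p 0 ≤ T ∨ p 2 ≤ T) (j : Fin 3) : p j ≤ (T + 1) * R := by
  have hNT : 2 * N ^ T ≤ N ^ (T + 1) := by rw [pow_succ, mul_comm]; exact Nat.mul_le_mul_left _ hN
  have h1 : x j ^ p j ≤ N ^ (T + 1) := by
    have h2 : ∀ i, p i ≤ T → x i ^ p i ≤ N ^ T := fun i hi =>
      (Nat.pow_le_pow_left (hxN i).1 _).trans (Nat.pow_le_pow_right (by omega) hi)
    rcases h with h | h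
    · have h3 := h2 0 h
      fin_cases j <;> simp only [Fin.zero_eta, Fin.mk_one, Fin.reduceFinMk] <;> omega
    · have h3 := h2 2 h
      fin_cases j <;> simp only [Fin.zero_eta, Fin.mk_one, Fin.reduceFinMk] <;> omega
  have h2 : N ^ p j ≤ N ^ ((T + 1) * R) := by
    calc N ^ p j ≤ (x j ^ R) ^ p j := Nat.pow_le_pow_left (hxN j).2 _
      _ = (x j ^ p j) ^ R := by rw [← pow_mul, ← pow_mul, mul_comm]
      _ ≤ (N ^ (T + 1)) ^ R := Nat.pow_le_pow_left h1 _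
      _ = N ^ ((T + 1) * R) := by rw [← pow_mul]
  exact (Nat.pow_le_pow_iff_right (by omega)).1 h2

end Pool.Agent.Run7.h777.FC
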