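import Mathlib
import Pool.Agent.Run7.h777.FC.Key

/-!
The main step: with `w ^ f` as common scale, the defect polynomial vanishes to high order.
-/

set_option autoImplicit false

namespace Pool.Agent.Run7.h777.FC

open Finset Polynomial

theorem place {D A R Q M0 w g E B : ℕ} {x p a : Fin 3 → ℕ} {e : Fin 3 → Fin D → ℕ}
    {c : Fin 3 → Fin D → ℤ} (hD : 1 ≤ D) (hA : A = 4 * R ^ 2 + 1) (hM0 : M0 = 6 * A + 2)
    (hw : 2 ≤ w) (hB : 1 ≤ B) (hg : 1 ≤ g) (hp : ∀ j, 2 ≤ p j ∧ p j ≤ E)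
    (hdig : ∀ j, Dig w D R B (x j) (a j) (e j) (c j)) (hcop : Nat.Coprime (x 0) (x 2))
    (hndvd : ¬ ((∃ n, x 0 ∣ w ^ n) ∧ ∃ n, x 2 ∣ w ^ n))
    (hgu : ∀ j i, g ≤ a j - e j i) (hua : ∀ j i, a j - e j i ≤ 4 * R ^ 2 * g)
    (hex : ∃ j i, a j - e j i = g)
    (hZ : ∀ f, g ≤ Q * f → (16 * E * D * B) ^ (2 * M0) ≤ w ^ f)
    (hQ : ∀ (U : ℕ) (u : Option (Fin 3 × Fin D) → ℕ), 1 ≤ U →
      (∀ i, U ≤ (40 * A) * u i ∧ u i ≤ (40 * A) * U) →
      ∃ f : ℕ, 1 ≤ f ∧ U ≤ Q * f ∧ ∃ m l : Option (Fin 3 × Fin D) → ℕ, ∀ i,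
        u i + l i = f * m i ∧ (2 * (M0 + 1)) * l i ≤ f ∧ 1 ≤ m i)
    {S : Fin 3 → ℝ} (hS : ∀ j, S j = ((x j : ℝ) / (w : ℝ) ^ (a j)) ^ p j) {k' : ℕ}
    (hk1 : g ≤ 2 * k') (hk2 : k' ≤ 20 * A * g)
    (hval : ∀ f m0 l0 Y K : ℕ, k' + l0 = f * m0 → w ^ l0 ≤ Y → 1 ≤ Y → f * K ≤ 14 * A * g →
      ∃ (k2 : ℕ) (c2 c3 : ℤ), c3 ≠ 0 ∧ |c2| ≤ Y ∧ |c3| ≤ 2 ∧
        |S 0 + c2 * (1 / ((w ^ f : ℕ) : ℝ)) ^ k2 * S 1 - c3 * S 2| ≤ (1 / ((w ^ f : ℕ) : ℝ)) ^ K) :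
    p 0 ≤ 4 * (A * Q) + 1 ∨ p 2 ≤ 4 * (A * Q) + 1 := by
  have hA1 : 1 ≤ A := by omega
  have hE : 2 ≤ E := (hp 0).1.trans (hp 0).2
  obtain ⟨f, hf, hgf, m, l, hml⟩ := hQ g
    (fun i => match i with | none => k' | some ji => a ji.1 - e ji.1 ji.2) hg (by
      intro i
      match i with
      | none =>
        constructor
        · exact hk1.trans (Nat.mul_le_mul_right _ (by omega))
        · exact hk2.trans (Nat.mul_le_mul_right _ (by omega))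
      | some ji =>
        constructor
        · exact (hgu ji.1 ji.2).trans (Nat.le_mul_of_pos_left _ (by omega))
        · exact (hua ji.1 ji.2).trans (Nat.mul_le_mul_right _ (by omega)))
  have hnone : k' + l none = f * m none := (hml none).1
  have hlnone := (hml none).2.1
  have hsome : ∀ j i, a j - e j i + l (some (j, i)) = f * m (some (j, i)) :=
    fun j i => (hml (some (j, i))).1
  have hlsome : ∀ j i, (2 * (M0 + 1)) * l (some (j, i)) ≤ f := fun j i => (hml (some (j, i))).2.1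
  have hmsome : ∀ j i, 1 ≤ m (some (j, i)) := fun j i => (hml (some (j, i))).2.2
  have : Nonempty (Fin D) := ⟨⟨0, hD⟩⟩
  obtain ⟨⟨j1, i1⟩, hmin⟩ := Finite.exists_min (fun ji : Fin 3 × Fin D => m (some ji))
  obtain ⟨μ, hμ⟩ : ∃ μ, μ = m (some (j1, i1)) := ⟨_, rfl⟩
  have hμ1 : 1 ≤ μ := by rw [hμ]; exact hmsome _ _
  have hμm : ∀ j i, μ ≤ m (some (j, i)) := fun j i => by rw [hμ]; exact hmin (j, i)
  have hfμ : f * μ ≤ 2 * g := by
    obtain ⟨j0, i0, h0⟩ := hex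
    have h1 := hsome j0 i0
    have h2 := hlsome j0 i0
    have h3 : f * μ ≤ f * m (some (j0, i0)) := Nat.mul_le_mul_left _ (hμm j0 i0)
    have h4 : f * 1 ≤ f * m (some (j0, i0)) := Nat.mul_le_mul_left _ (hmsome j0 i0)
    have h5 : 2 * l (some (j0, i0)) ≤ (2 * (M0 + 1)) * l (some (j0, i0)) :=
      Nat.mul_le_mul_right _ (by omega)
    omega
  have hmΦ : ∀ j i, m (some (j, i)) ≤ A * μ := by
    intro j i
    have h1 := hsome j i
    have h2 := hlsome j i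
    have h3 := hua j i
    have h4 := hgu j1 i1
    have h5 := hsome j1 i1
    rw [← hμ] at h5
    have h6 : l (some (j, i)) ≤ (2 * (M0 + 1)) * l (some (j, i)) :=
      Nat.le_mul_of_pos_left _ (by omega)
    have h7 : 4 * R ^ 2 * g ≤ 4 * R ^ 2 * (f * μ) := Nat.mul_le_mul_left _ (by omega)
    have h8 : f * m (some (j, i)) ≤ f * (A * μ) := by
      calc f * m (some (j, i)) ≤ 4 * R ^ 2 * (f * μ) + f := by omega
        _ ≤ 4 * R ^ 2 * (f * μ) + f * μ := by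
            have : f * 1 ≤ f * μ := Nat.mul_le_mul_left _ hμ1
            omega
        _ = f * (A * μ) := by rw [hA]; ring
    exact Nat.le_of_mul_le_mul_left h8 (by omega)
  obtain ⟨Φ, hΦ⟩ : ∃ Φ, Φ = A * μ := ⟨_, rfl⟩
  have hΦQ : Φ ≤ 2 * (A * Q) := by
    have h1 : f * μ ≤ f * (2 * Q) := by
      calc f * μ ≤ 2 * g := hfμ
        _ ≤ 2 * (Q * f) := Nat.mul_le_mul_left _ hgf
        _ = f * (2 * Q) := by ring
    have h2 : μ ≤ 2 * Q := Nat.le_of_mul_le_mul_left h1 (by omega)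
    calc Φ = A * μ := hΦ
      _ ≤ A * (2 * Q) := Nat.mul_le_mul_left _ h2
      _ = _ := by ring
  obtain ⟨K, hK⟩ : ∃ K, K = 6 * Φ + 1 := ⟨_, rfl⟩
  have hfK : f * K ≤ 14 * A * g := by
    have h1 : f * 1 ≤ f * (A * μ) := Nat.mul_le_mul_left _ (Nat.mul_pos hA1 hμ1)
    calc f * K = 6 * (f * (A * μ)) + f := by rw [hK, hΦ]; ring
      _ ≤ 7 * (f * (A * μ)) := by omega
      _ = 7 * A * (f * μ) := by ring
      _ ≤ 7 * A * (2 * g) := Nat.mul_le_mul_left _ hfμ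
      _ = 14 * A * g := by ring
  have hKμ : K / μ + 1 ≤ M0 := by
    have h1 : K ≤ (6 * A + 1) * μ := by
      rw [hK, hΦ]
      calc 6 * (A * μ) + 1 ≤ 6 * (A * μ) + μ := by omega
        _ = (6 * A + 1) * μ := by ring
    have h2 : K / μ ≤ 6 * A + 1 := by
      rw [Nat.div_le_iff_le_mul_add_pred (by omega)]
      have : μ * (6 * A + 1) = (6 * A + 1) * μ := mul_comm _ _
      omega
    omega
  obtain ⟨Y, hY⟩ : ∃ Y, Y = w ^ (f / (2 * (M0 + 1))) := ⟨_, rfl⟩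
  have hY1 : 1 ≤ Y := by rw [hY]; exact Nat.one_le_pow _ _ (by omega)
  have hlY : ∀ s, (2 * (M0 + 1)) * s ≤ f → w ^ s ≤ Y := by
    intro s hs
    rw [hY]
    apply Nat.pow_le_pow_right (by omega)
    rw [Nat.le_div_iff_mul_le (by omega)]
    linarith
  have hYW : Y ^ (2 * (M0 + 1)) ≤ w ^ f := by
    rw [hY, ← pow_mul]
    exact Nat.pow_le_pow_right (by omega) (Nat.div_mul_le_self _ _)
  have hZW := hZ f hgf
  obtain ⟨k2, c2, c3, hc30, hc2, hc3, hv⟩ := hval f (m none) (l none) Y K hnone (hlY _ hlnone) hY1 hfK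
  -- the polynomials
  obtain ⟨P, hP⟩ : ∃ P : Fin 3 → ℤ[X],
      P = fun j => pol (fun i => c j i * (w : ℤ) ^ (l (some (j, i)))) (fun i => m (some (j, i))) :=
    ⟨_, rfl⟩
  have hPe : ∀ j, (x j : ℝ) = (w : ℝ) ^ (a j) * aeval (1 / ((w ^ f : ℕ) : ℝ)) (P j) := by
    intro j; rw [hP]; exact (hdig j).eval (by omega) (hsome j)
  have hP0 : ∀ j, (P j).coeff 0 = 1 := by
    intro j; rw [hP]; exact pol_zero (hmsome j)
  have hPd : ∀ j, (P j).natDegree ≤ Φ := by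
    intro j; rw [hP, hΦ]; exact pol_deg (hmΦ j)
  have hPb : ∀ j i, |c j i * (w : ℤ) ^ (l (some (j, i)))| ≤ ((B * Y : ℕ) : ℤ) := by
    intro j i
    rw [abs_mul, abs_of_nonneg (by positivity : (0 : ℤ) ≤ (w : ℤ) ^ (l (some (j, i))))]
    push_cast
    apply mul_le_mul ((hdig j).hc i) _ (by positivity) (by positivity)
    exact_mod_cast hlY _ (hlsome j i)
  have hPc : ∀ j n, |((P j) ^ (p j)).coeff n| ≤ ((E * D * (B * Y) : ℕ) : ℤ) ^ (n / μ) := by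
    intro j n; rw [hP]
    exact pol_pow hμ1 hD (Nat.mul_pos hB hY1) (hPb j) (hμm j) (by have := (hp j).1; omega)
      (hp j).2 n
  obtain ⟨H, hH⟩ : ∃ H, H = E * D * (B * Y) := ⟨_, rfl⟩
  rw [← hH] at hPc
  have hH1 : 1 ≤ H := by
    rw [hH]; exact Nat.mul_pos (Nat.mul_pos (by omega) hD) (Nat.mul_pos hB hY1)
  have hHz : (1 : ℤ) ≤ H := by exact_mod_cast hH1
  have hbig : 8 * (4 * Y) * H ^ (K / μ + 1) ≤ w ^ f := by
    have h1 : H ^ (K / μ + 1) ≤ H ^ M0 := Nat.pow_le_pow_right hH1 hKμ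
    have h2 : 8 * (4 * Y) * H ^ M0 ≤ (16 * E * D * B) ^ M0 * Y ^ (M0 + 1) := by
      have h3 : 32 ≤ 16 ^ M0 := by
        calc 32 ≤ 16 ^ 2 := by norm_num
          _ ≤ 16 ^ M0 := Nat.pow_le_pow_right (by norm_num) (by omega)
      calc 8 * (4 * Y) * H ^ M0 = 32 * (E * D * B) ^ M0 * Y ^ (M0 + 1) := by
            rw [hH, ← mul_assoc (E * D) B Y, mul_pow, pow_succ]; ring
        _ ≤ 16 ^ M0 * (E * D * B) ^ M0 * Y ^ (M0 + 1) := by gcongr
        _ = _ := by rw [← mul_pow]; ring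
    have h3 : (16 * E * D * B) ^ M0 * Y ^ (M0 + 1) ≤ w ^ f := by
      rw [← Nat.pow_le_pow_iff_left (show 2 ≠ 0 by norm_num)]
      calc ((16 * E * D * B) ^ M0 * Y ^ (M0 + 1)) ^ 2 =
            (16 * E * D * B) ^ (2 * M0) * Y ^ (2 * (M0 + 1)) := by
            rw [mul_pow, ← pow_mul, ← pow_mul, mul_comm M0 2, mul_comm (M0 + 1) 2]
        _ ≤ w ^ f * w ^ f := Nat.mul_le_mul hZW hYW
        _ = (w ^ f) ^ 2 := (sq _).symm
    calc 8 * (4 * Y) * H ^ (K / μ + 1) ≤ 8 * (4 * Y) * H ^ M0 := Nat.mul_le_mul_left _ h1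
      _ ≤ _ := h2.trans h3
  have hFc : ∀ n, |(P 0 ^ p 0 + C c2 * (X ^ k2 * P 1 ^ p 1) - C c3 * P 2 ^ p 2).coeff n| ≤
      ((4 * Y : ℕ) : ℤ) * (H : ℤ) ^ (n / μ) := by
    intro n
    have h0 := hPc 0 n
    have h2 := hPc 2 n
    have h1 : |(X ^ k2 * P 1 ^ p 1 : ℤ[X]).coeff n| ≤ (H : ℤ) ^ (n / μ) := by
      rw [coeff_X_pow_mul']
      split_ifs with h
      · refine (hPc 1 _).trans ?_
        exact pow_le_pow_right₀ hHz (Nat.div_le_div_right (by omega))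
      · rw [abs_zero]; positivity
    rw [coeff_sub, coeff_add, coeff_C_mul, coeff_C_mul]
    have hYz : (1 : ℤ) ≤ Y := by exact_mod_cast hY1
    have hHn : (0 : ℤ) ≤ (H : ℤ) ^ (n / μ) := by positivity
    calc |(P 0 ^ p 0).coeff n + c2 * (X ^ k2 * P 1 ^ p 1 : ℤ[X]).coeff n - c3 * (P 2 ^ p 2).coeff n|
        ≤ |(P 0 ^ p 0).coeff n| + |c2| * |(X ^ k2 * P 1 ^ p 1 : ℤ[X]).coeff n| +
          |c3| * |(P 2 ^ p 2).coeff n| := by
          rw [← abs_mul, ← abs_mul]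
          exact (abs_sub _ _).trans (add_le_add_left (abs_add_le _ _) _)
      _ ≤ (H : ℤ) ^ (n / μ) + Y * (H : ℤ) ^ (n / μ) + 2 * (H : ℤ) ^ (n / μ) := by
          apply add_le_add (add_le_add h0 _)
          · exact mul_le_mul hc3 h2 (abs_nonneg _) (by norm_num)
          · exact mul_le_mul hc2 h1 (abs_nonneg _) (by positivity)
      _ ≤ _ := by push_cast; nlinarith
  have hF : (X : ℤ[X]) ^ (6 * Φ + 1) ∣ P 0 ^ p 0 + C c2 * (X ^ k2 * P 1 ^ p 1) - C c3 * P 2 ^ p 2 := by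
    rw [← hK]
    refine low hμ1 hH1 (by omega : 1 ≤ 4 * Y) hbig hFc ?_
    have hae : ∀ j, aeval (1 / ((w ^ f : ℕ) : ℝ)) (P j) = (x j : ℝ) / (w : ℝ) ^ (a j) := by
      intro j
      rw [hPe j, mul_comm, mul_div_assoc, div_self, mul_one]
      have : (0 : ℝ) < w := by exact_mod_cast (by omega : 0 < w)
      positivity
    have h1 : aeval (1 / ((w ^ f : ℕ) : ℝ))
        (P 0 ^ p 0 + C c2 * (X ^ k2 * P 1 ^ p 1) - C c3 * P 2 ^ p 2) =
        S 0 + c2 * (1 / ((w ^ f : ℕ) : ℝ)) ^ k2 * S 1 - c3 * S 2 := by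
      simp only [map_sub, map_add, map_mul, map_pow, aeval_X, aeval_C, hae, hS]
      simp only [algebraMap_int_eq, eq_intCast]
      ring
    rw [h1]
    exact hv
  obtain ⟨r1, r2⟩ := core (w := w) (f := f) (by omega) (hP0 0) (hP0 1) (hP0 2) hc30 (hPd 0) (hPd 1)
    (hPd 2) (hp 0).1 (hp 2).1 (hPe 0) (hPe 2) hcop hF
  rcases r1 with r1 | r1
  · left; omega
  · rcases r2 with r2 | r2
    · right; omega
    · exact absurd ⟨r1, r2⟩ hndvd

end Pool.Agent.Run7.h777.FC
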