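import Mathlib
import Pool.Agent.Run7.h777.FC.Key2

/-!
Bounded exponents: the complete case distinction.
-/

set_option autoImplicit false

namespace Pool.Agent.Run7.h777.FC

open Finset Polynomial

theorem key (D R : ℕ) (hD : 1 ≤ D) (hR : 1 ≤ R) : ∃ M1 J : ℕ, ∀ (w N E B : ℕ) (x p a : Fin 3 → ℕ)
    (e : Fin 3 → Fin D → ℕ) (c : Fin 3 → Fin D → ℤ), 2 ≤ w → 1 ≤ B → 2 ≤ N →
    (∀ j, 2 ≤ p j ∧ p j ≤ E) → (∀ j, Dig w D R B (x j) (a j) (e j) (c j)) →
    (∀ j, x j ≤ N ∧ N ≤ x j ^ R) → (16 * E * D * B) ^ M1 ≤ N →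
    x 0 ^ p 0 + x 1 ^ p 1 = x 2 ^ p 2 → x 1 ^ p 1 ≤ x 0 ^ p 0 → Nat.Coprime (x 0) (x 2) →
    ¬ ((∃ n, x 0 ∣ w ^ n) ∧ ∃ n, x 2 ∣ w ^ n) → ∀ j, p j ≤ J := by
  obtain ⟨A, hA⟩ : ∃ A, A = 4 * R ^ 2 + 1 := ⟨_, rfl⟩
  obtain ⟨M0, hM0⟩ : ∃ M0, M0 = 6 * A + 2 := ⟨_, rfl⟩
  obtain ⟨Q, hQ⟩ := dir' D (40 * A) (2 * (M0 + 1)) (by omega) (by omega)
  refine ⟨8 * R ^ 2 + 4 * R ^ 2 * M0 * Q, (4 * (A * Q) + 1 + 1) * R, ?_⟩
  intro w N E B x p a e c hw hB hN hp hdig hxN hZN heq hle hcop hndvd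
  refine all_of_one hN hxN heq hle ?_
  have hE : 2 ≤ E := (hp 0).1.trans (hp 0).2
  obtain ⟨Z, hZ⟩ : ∃ Z, Z = 16 * E * D * B := ⟨_, rfl⟩
  rw [← hZ] at hZN
  have hEDB : 1 ≤ E * D * B := Nat.mul_pos (Nat.mul_pos (by omega) hD) hB
  have hZ1 : 1 ≤ Z := by rw [hZ]; nlinarith
  have hZp : ∀ n, n ≤ 8 * R ^ 2 + 4 * R ^ 2 * M0 * Q → Z ^ n ≤ N := fun n hn =>
    (Nat.pow_le_pow_right hZ1 hn).trans hZN
  have hR2 : R ≤ R ^ 2 := Nat.le_self_pow (by norm_num) R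
  have hR1 : 1 ≤ R ^ 2 := hR.trans hR2
  -- the leading position
  have hxa : ∀ j, x j ≤ Z * w ^ a j := by
    intro j
    have h1 := (hdig j).close (by omega) (g := 0) (fun i => Nat.zero_le _)
    rw [pow_zero, mul_one] at h1
    have h2 : (x j : ℤ) ≤ (1 + D * B) * (w : ℤ) ^ a j := by
      have := le_abs_self ((x j : ℤ) - (w : ℤ) ^ a j)
      linarith
    have h3 : x j ≤ (1 + D * B) * w ^ a j := by exact_mod_cast h2
    refine h3.trans (Nat.mul_le_mul_right _ ?_)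
    have h4 : 1 ≤ D * B := Nat.mul_pos hD hB
    calc 1 + D * B ≤ 2 * (D * B) := by omega
      _ ≤ (16 * E) * (D * B) := Nat.mul_le_mul_right _ (by omega)
      _ = Z := by rw [hZ]; ring
  have hNa : ∀ j, N ≤ w ^ (2 * R * a j) := by
    intro j
    have h1 : N ≤ Z ^ R * w ^ (a j * R) := by
      calc N ≤ x j ^ R := (hxN j).2
        _ ≤ (Z * w ^ a j) ^ R := Nat.pow_le_pow_left (hxa j) _
        _ = Z ^ R * w ^ (a j * R) := by rw [mul_pow, ← pow_mul]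
    have h2 : N * N ≤ N * w ^ (2 * R * a j) := by
      calc N * N ≤ (Z ^ R * w ^ (a j * R)) * (Z ^ R * w ^ (a j * R)) := Nat.mul_le_mul h1 h1
        _ = Z ^ (2 * R) * w ^ (2 * R * a j) := by
            rw [show 2 * R = R + R by ring, show (R + R) * a j = a j * R + a j * R by ring, pow_add,
              pow_add]; ring
        _ ≤ N * w ^ (2 * R * a j) := Nat.mul_le_mul_right _ (hZp _ (by
            have : 0 ≤ 4 * R ^ 2 * M0 * Q := Nat.zero_le _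
            omega))
    exact Nat.le_of_mul_le_mul_left h2 (by omega)
  have hNu : ∀ j i, N ≤ w ^ (2 * R ^ 2 * (a j - e j i)) := by
    intro j i
    refine (hNa j).trans (Nat.pow_le_pow_right (by omega) ?_)
    calc 2 * R * a j ≤ 2 * R * (R * (a j - e j i)) := Nat.mul_le_mul_left _ ((hdig j).he i).2
      _ = _ := by ring
  have : Nonempty (Fin D) := ⟨⟨0, hD⟩⟩
  obtain ⟨⟨j0, i0⟩, hmin⟩ := Finite.exists_min (fun ji : Fin 3 × Fin D => a ji.1 - e ji.1 ji.2)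
  obtain ⟨g, hg⟩ : ∃ g, g = a j0 - e j0 i0 := ⟨_, rfl⟩
  have hgu : ∀ j i, g ≤ a j - e j i := fun j i => by rw [hg]; exact hmin (j, i)
  have hNg : N ≤ w ^ (2 * R ^ 2 * g) := by rw [hg]; exact hNu _ _
  have hg1 : 1 ≤ g := by
    by_contra h0
    have h1 : g = 0 := by omega
    rw [h1, mul_zero, pow_zero] at hNg
    omega
  have hZg : Z ^ 4 ≤ w ^ g := by
    rw [← Nat.pow_le_pow_iff_left (show 2 * R ^ 2 ≠ 0 by omega), ← pow_mul, ← pow_mul]
    calc Z ^ (4 * (2 * R ^ 2)) ≤ N := hZp _ (by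
          have : 0 ≤ 4 * R ^ 2 * M0 * Q := Nat.zero_le _
          omega)
      _ ≤ w ^ (2 * R ^ 2 * g) := hNg
      _ = w ^ (g * (2 * R ^ 2)) := by rw [mul_comm]
  -- real sizes
  have hwr : (2 : ℝ) ≤ w := by exact_mod_cast hw
  have hwp : ∀ n, (0 : ℝ) < (w : ℝ) ^ n := fun n => by positivity
  obtain ⟨ε, hε⟩ : ∃ ε : ℝ, ε = D * B / (w : ℝ) ^ g := ⟨_, rfl⟩
  have hε0 : 0 ≤ ε := by rw [hε]; positivity
  have hZgr : (16 * E * D * B : ℝ) ≤ (w : ℝ) ^ g := by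
    have h1 : Z ≤ w ^ g := (Nat.le_self_pow (by norm_num) Z).trans hZg
    rw [hZ] at h1
    exact_mod_cast h1
  have hEε : (E : ℝ) * ε ≤ 1 / 16 := by
    rw [hε, mul_div_assoc', div_le_iff₀ (hwp g)]
    linarith
  have hEr : (2 : ℝ) ≤ E := by exact_mod_cast hE
  have hε1 : ε ≤ 1 / 16 := by nlinarith
  have hclose : ∀ j, |(x j : ℝ) / (w : ℝ) ^ a j - 1| ≤ ε := by
    intro j
    have h1 := (hdig j).close (by omega) (g := g) (hgu j)
    have h2 : |(x j : ℝ) - (w : ℝ) ^ a j| * (w : ℝ) ^ g ≤ D * B * (w : ℝ) ^ a j := by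
      exact_mod_cast h1
    have h3 : (x j : ℝ) / (w : ℝ) ^ a j - 1 = ((x j : ℝ) - (w : ℝ) ^ a j) / (w : ℝ) ^ a j := by
      rw [sub_div, div_self (hwp _).ne']
    rw [h3, abs_div, abs_of_pos (hwp _), hε, div_le_div_iff₀ (hwp _) (hwp _)]
    exact h2
  have haN : ∀ j, a j ≤ 4 * R ^ 2 * g := by
    intro j
    have h1 := (abs_le.1 (hclose j)).1
    have h2 : (1 : ℝ) / 2 ≤ (x j : ℝ) / (w : ℝ) ^ a j := by linarith
    rw [le_div_iff₀ (hwp _)] at h2
    have h3 : (w : ℝ) ^ a j ≤ 2 * x j := by linarith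
    have h4 : w ^ a j ≤ 2 * x j := by exact_mod_cast h3
    have h5 : w ^ a j ≤ w ^ (4 * R ^ 2 * g) := by
      calc w ^ a j ≤ 2 * x j := h4
        _ ≤ N * N := Nat.mul_le_mul hN (hxN j).1
        _ ≤ w ^ (2 * R ^ 2 * g) * w ^ (2 * R ^ 2 * g) := Nat.mul_le_mul hNg hNg
        _ = w ^ (4 * R ^ 2 * g) := by rw [← pow_add]; congr 1; ring
    exact (Nat.pow_le_pow_iff_right (by omega)).1 h5
  obtain ⟨S, hS⟩ : ∃ S : Fin 3 → ℝ, S = fun j => ((x j : ℝ) / (w : ℝ) ^ (a j)) ^ p j := ⟨_, rfl⟩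
  have hS' : ∀ j, S j = ((x j : ℝ) / (w : ℝ) ^ (a j)) ^ p j := fun j => by rw [hS]
  have hS1 : ∀ j, |S j - 1| ≤ 2 * (E * ε) := by
    intro j
    rw [hS']
    exact near_one hε0 (hclose j) (by exact_mod_cast (hp j).2) hEε hε1
  have hSx : ∀ j, S j * (w : ℝ) ^ (a j * p j) = (x j : ℝ) ^ p j := by
    intro j
    rw [hS', pow_mul, ← mul_pow, div_mul_cancel₀ _ (hwp _).ne']
  have heq' : S 0 * (w : ℝ) ^ (a 0 * p 0) + S 1 * (w : ℝ) ^ (a 1 * p 1) =
      S 2 * (w : ℝ) ^ (a 2 * p 2) := by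
    rw [hSx, hSx, hSx]; exact_mod_cast heq
  have hle' : S 1 * (w : ℝ) ^ (a 1 * p 1) ≤ S 0 * (w : ℝ) ^ (a 0 * p 0) := by
    rw [hSx, hSx]; exact_mod_cast hle
  obtain ⟨k, -, hk⟩ := sizes hw (by linarith) (hS1 0) (hS1 1) (hS1 2) heq' hle'
  have hZW : ∀ f, g ≤ Q * f → (16 * E * D * B) ^ (2 * M0) ≤ w ^ f := by
    intro f hf
    have hQ1 : 1 ≤ Q := by
      rcases Nat.eq_zero_or_pos Q with h0 | h0
      · rw [h0] at hf; omega
      · exact h0
    rw [← hZ, ← Nat.pow_le_pow_iff_left (show 2 * R ^ 2 * Q ≠ 0 by positivity), ← pow_mul, ← pow_mul]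
    calc Z ^ (2 * M0 * (2 * R ^ 2 * Q)) ≤ N := hZp _ (by nlinarith)
      _ ≤ w ^ (2 * R ^ 2 * g) := hNg
      _ ≤ w ^ (2 * R ^ 2 * (Q * f)) := Nat.pow_le_pow_right (by omega) (Nat.mul_le_mul_left _ hf)
      _ = w ^ (f * (2 * R ^ 2 * Q)) := by congr 1; ring
  have hA1 : 5 ≤ A := by omega
  have hplace := fun (k' : ℕ) h1 h2 h3 => place (k' := k') hD hA hM0 hw hB hg1 hp hdig hcop hndvd hgu
    (fun j i => (Nat.sub_le _ _).trans (haN j)) ⟨j0, i0, hg.symm⟩ hZW hQ hS' h1 h2 h3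
  have hWp : ∀ f : ℕ, (0 : ℝ) < ((w ^ f : ℕ) : ℝ) := fun f => by
    push_cast; exact hwp f
  rcases hk with ⟨hk1, hk2⟩ | hk1
  · rcases Nat.lt_or_ge (20 * A * g) k with hfar | hnear
    · -- the second term is negligible
      refine hplace g (by omega) ?_ ?_
      · calc g = 1 * g := (one_mul g).symm
          _ ≤ 20 * A * g := Nat.mul_le_mul_right _ (by omega)
      · intro f m0 l0 Y K _ _ hY1 hfK
        refine ⟨0, 0, 1, one_ne_zero, by simp, by norm_num, ?_⟩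
        have h1 : S 0 + ((0 : ℤ) : ℝ) * (1 / ((w ^ f : ℕ) : ℝ)) ^ 0 * S 1 - ((1 : ℤ) : ℝ) * S 2 =
            - (S 1 * (1 / (w : ℝ)) ^ k) := by
          push_cast; linarith
        rw [h1, abs_neg]
        have h2 := abs_le.1 (hS1 1)
        have h3 : f * K + 1 ≤ k := by
          have : 14 * A * g ≤ 20 * A * g := Nat.mul_le_mul_right _ (by omega)
          omega
        have hw1 : 0 < 1 / (w : ℝ) := by positivity
        have hw2 : 1 / (w : ℝ) ≤ 1 / 2 := by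
          apply one_div_le_one_div_of_le (by norm_num) hwr
        have h4 : (1 / (w : ℝ)) ^ k ≤ (1 / (w : ℝ)) ^ (f * K) * (1 / 2) := by
          calc (1 / (w : ℝ)) ^ k ≤ (1 / (w : ℝ)) ^ (f * K + 1) :=
                pow_le_pow_of_le_one hw1.le (by linarith) h3
            _ = (1 / (w : ℝ)) ^ (f * K) * (1 / (w : ℝ)) := pow_succ _ _
            _ ≤ _ := mul_le_mul_of_nonneg_left hw2 (by positivity)
        have h5 : (1 / ((w ^ f : ℕ) : ℝ)) ^ K = (1 / (w : ℝ)) ^ (f * K) := by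
          push_cast
          rw [pow_mul, one_div_pow (w : ℝ) f]
        rw [h5, abs_of_nonneg (mul_nonneg (by linarith) (by positivity))]
        have h6 : 0 < (1 / (w : ℝ)) ^ (f * K) := by positivity
        have h7 : 0 < (1 / (w : ℝ)) ^ k := by positivity
        nlinarith
    · -- the second term is visible
      refine hplace k ?_ hnear ?_
      · -- `g ≤ 2 k`
        have h1 : (w : ℝ) ^ g ≤ 8 * (E * (D * B)) * (w : ℝ) ^ k := by
          have h2 : ε * (w : ℝ) ^ g = D * B := by rw [hε]; field_simp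
          have h3 : 1 * (w : ℝ) ^ g ≤ (8 * (E * ε) * (w : ℝ) ^ k) * (w : ℝ) ^ g :=
            mul_le_mul_of_nonneg_right hk2 (hwp g).le
          calc (w : ℝ) ^ g = 1 * (w : ℝ) ^ g := (one_mul _).symm
            _ ≤ (8 * (E * ε) * (w : ℝ) ^ k) * (w : ℝ) ^ g := h3
            _ = 8 * (E * (ε * (w : ℝ) ^ g)) * (w : ℝ) ^ k := by ring
            _ = _ := by rw [h2]
        have h2 : w ^ g ≤ 8 * (E * (D * B)) * w ^ k := by exact_mod_cast h1
        have h3 : w ^ g ≤ Z * w ^ k := by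
          refine h2.trans (Nat.mul_le_mul_right _ ?_)
          rw [hZ]; nlinarith
        have h4 : w ^ (2 * g) ≤ w ^ (g + 2 * k) := by
          calc w ^ (2 * g) = w ^ g * w ^ g := by rw [← pow_add]; congr 1; ring
            _ ≤ (Z * w ^ k) * (Z * w ^ k) := Nat.mul_le_mul h3 h3
            _ = Z ^ 2 * (w ^ k * w ^ k) := by ring
            _ ≤ Z ^ 4 * (w ^ k * w ^ k) := Nat.mul_le_mul_right _ (Nat.pow_le_pow_right hZ1 (by norm_num))
            _ ≤ w ^ g * (w ^ k * w ^ k) := Nat.mul_le_mul_right _ hZg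
            _ = w ^ (g + 2 * k) := by rw [← pow_add, ← pow_add]; congr 1; ring
        have h5 := (Nat.pow_le_pow_iff_right (by omega)).1 h4
        omega
      · intro f m0 l0 Y K hkf hlY _ _
        refine ⟨m0, (w : ℤ) ^ l0, 1, one_ne_zero, ?_, by norm_num, ?_⟩
        · rw [abs_of_nonneg (by positivity)]; exact_mod_cast hlY
        · have h1 : (((w : ℤ) ^ l0 : ℤ) : ℝ) * (1 / ((w ^ f : ℕ) : ℝ)) ^ m0 = (1 / (w : ℝ)) ^ k := by
            push_cast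
            have h2 : (w : ℝ) ^ k * (w : ℝ) ^ l0 = ((w : ℝ) ^ f) ^ m0 := by
              rw [← pow_add, hkf, pow_mul]
            rw [one_div_pow, one_div_pow, mul_one_div, div_eq_div_iff (by positivity) (by positivity),
              ← h2]
            ring
          rw [h1]
          have h2 : S 0 + (1 / (w : ℝ)) ^ k * S 1 - ((1 : ℤ) : ℝ) * S 2 = 0 := by
            push_cast; linarith
          rw [h2, abs_zero]
          have := hWp f
          positivity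
  · -- `w = 2` and equal sizes
    refine hplace g (by omega) ?_ ?_
    · calc g = 1 * g := (one_mul g).symm
        _ ≤ 20 * A * g := Nat.mul_le_mul_right _ (by omega)
    · intro f m0 l0 Y K _ _ hY1 _
      refine ⟨0, 1, 2, two_ne_zero, ?_, by norm_num, ?_⟩
      · rw [abs_one]; exact_mod_cast hY1
      · have h2 : S 0 + ((1 : ℤ) : ℝ) * (1 / ((w ^ f : ℕ) : ℝ)) ^ 0 * S 1 - ((2 : ℤ) : ℝ) * S 2 = 0 := by
          push_cast; linarith
        rw [h2, abs_zero]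
        have := hWp f
        positivity

end Pool.Agent.Run7.h777.FC
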