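import Mathlib
import Pool.Agent.Run7.h777.FC.Key3
import Pool.Agent.R477.FC.Fam
import Pool.Agent.H458.Sp.FCAll

/-!
Finiteness of the solutions whose bases have few digits and an isolated leading digit.
-/

set_option autoImplicit false

namespace Pool.Agent.Run7.h777.FC

open Finset Polynomial
open Pool.Agent.R477.FC (exps polylog_lt vals_fin SSol)

/-- polynomially bounded functions -/
def PB (g : ℕ → ℕ) : Prop := ∃ C c : ℕ, ∀ B, 1 ≤ B → g B ≤ C * B ^ c

theorem PB.const (n : ℕ) : PB fun _ => n := ⟨n, 0, fun B _ => by simp⟩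

theorem PB.id : PB fun B => B := ⟨1, 1, fun B _ => by simp⟩

theorem PB.mul {g h : ℕ → ℕ} (hg : PB g) (hh : PB h) : PB fun B => g B * h B := by
  obtain ⟨C, c, h1⟩ := hg
  obtain ⟨C', c', h2⟩ := hh
  refine ⟨C * C', c + c', fun B hB => ?_⟩
  calc g B * h B ≤ (C * B ^ c) * (C' * B ^ c') := Nat.mul_le_mul (h1 B hB) (h2 B hB)
    _ = C * C' * B ^ (c + c') := by rw [pow_add]; ring

theorem PB.pow {g : ℕ → ℕ} (hg : PB g) (n : ℕ) : PB fun B => g B ^ n := by
  induction n with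
  | zero => simpa using PB.const 1
  | succ n ih => simpa only [pow_succ] using ih.mul hg

/-- bounded exponents: the bases are bounded by a polynomial in the size of the digits -/
theorem bases_bound (D J : ℕ) : ∃ C c : ℕ, ∀ (w B : ℕ) (x p a : Fin 3 → ℕ) (e : Fin 3 → Fin D → ℕ)
    (q : Fin 3 → Fin D → ℤ), 2 ≤ w → 1 ≤ B → (∀ j, 1 ≤ p j) → (∀ j, p j ≤ J) → (∀ j, 1 ≤ x j) →
    (∀ j i, |q j i| ≤ B) → (∀ j, (x j : ℤ) = (w : ℤ) ^ a j + ∑ i, q j i * (w : ℤ) ^ (e j i)) →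
    p 1 * p 2 + p 2 * p 0 + p 0 * p 1 ≤ p 0 * p 1 * p 2 → Nat.Coprime (x 0) (x 1) →
    x 0 ^ p 0 + x 1 ^ p 1 = x 2 ^ p 2 → ∀ j, x j ≤ C * B ^ c := by
  obtain ⟨r, hr⟩ : ∃ r, r = 3 * (D + 1) := ⟨_, rfl⟩
  have hpb : PB fun B => r * (((1 + 3) * (r * B) ^ J) * B) * (((1 + 3) * (r * B) ^ J) ^ 2 *
      ((1 + 3) * (r * (((1 + 3) * (r * B) ^ J) * B)) ^ J)) ^ (8 * (4 * J) ^ r) ^ (r * r + 1) := by
    have h1 : PB fun B => (1 + 3) * (r * B) ^ J :=
      (PB.const (1 + 3)).mul (((PB.const r).mul PB.id).pow J)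
    have h2 : PB fun B => r * (((1 + 3) * (r * B) ^ J) * B) := (PB.const r).mul (h1.mul PB.id)
    exact h2.mul (((h1.pow 2).mul ((PB.const (1 + 3)).mul (h2.pow J))).pow _)
  obtain ⟨C, c, hC⟩ := hpb
  refine ⟨C, c, ?_⟩
  intro w B x p a e q hw hB hp hpJ hx0 hq hx hyp hcop heq j
  have hcard : Fintype.card (Fin 3 × Option (Fin D)) = r := by simp [hr]
  have E : Fin 3 × Option (Fin D) ≃ Fin r := Fintype.equivFinOfCardEq hcard
  have hBz : (1 : ℤ) ≤ B := by exact_mod_cast hB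
  have h := Pool.Agent.H458.Sp.fc_all (r := r) (p 0) (p 1) (p 2) (hp 0) (hp 1) (hp 2) hyp 1 1 (-1)
    one_ne_zero one_ne_zero (by norm_num) w hw B
    (fun i => match E.symm i with | (j, none) => a j | (j, some k) => e j k)
    (fun j' i => match E.symm i with
      | (j, none) => if j' = j then 1 else 0
      | (j, some k) => if j' = j then q j k else 0)
    (by
      intro j' i
      rcases E.symm i with ⟨j, _ | k⟩
      · dsimp only
        split_ifs
        · simpa using hBz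
        · simp
      · dsimp only
        split_ifs
        · exact hq j k
        · simp)
    (fun j => (x j : ℤ))
    (by
      intro j'
      rw [← E.sum_comp]
      simp only [E.symm_apply_apply]
      rw [Fintype.sum_prod_type]
      simp only [Fintype.sum_option]
      rw [hx j']
      rw [sum_eq_single j' (by
        intro j _ hj
        rw [if_neg (Ne.symm hj), zero_mul, zero_add]
        apply sum_eq_zero
        intro k _
        rw [if_neg (Ne.symm hj), zero_mul]) (by simp)]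
      simp)
    (by intro j; have := hx0 j; exact_mod_cast (by omega : x j ≠ 0))
    (Nat.isCoprime_iff_coprime.2 hcop)
    (by
      have : (x 0 : ℤ) ^ p 0 + (x 1 : ℤ) ^ p 1 = (x 2 : ℤ) ^ p 2 := by exact_mod_cast heq
      linarith)
    J (hpJ 0) (hpJ 1) (hpJ 2) 3 (by norm_num) ((1 + 3) * (r * B) ^ J) rfl j
  have h1 := hC B hB
  have h2 : |(x j : ℤ)| = x j := abs_of_nonneg (by positivity)
  rw [h2] at h
  exact (Int.ofNat_le.1 h).trans h1

theorem main (D R : ℕ) : ∃ M : ℕ, {v : ℕ × ℕ × ℕ | ∃ (x p a : Fin 3 → ℕ) (e : Fin 3 → Fin D → ℕ)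
    (c : Fin 3 → Fin D → ℤ) (w B N : ℕ), 2 ≤ w ∧ 1 ≤ B ∧ (∀ j, 1 ≤ x j) ∧ (∀ j, 1 ≤ p j) ∧
    Nat.Coprime (x 0) (x 1) ∧ x 0 ^ p 0 + x 1 ^ p 1 = x 2 ^ p 2 ∧
    p 1 * p 2 + p 2 * p 0 + p 0 * p 1 ≤ p 0 * p 1 * p 2 ∧
    (∀ j, Dig w D R B (x j) (a j) (e j) (c j)) ∧ (∀ j, x j ≤ N ∧ N ≤ x j ^ R) ∧ B ^ M ≤ N ∧
    (∀ i j, (∃ n, x i ∣ w ^ n) → (∃ n, x j ∣ w ^ n) → i = j) ∧
    v = (x 0 ^ p 0, x 1 ^ p 1, x 2 ^ p 2)}.Finite := by
  rcases Nat.eq_zero_or_pos D with hD | hD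
  · refine ⟨0, ?_⟩
    convert Set.finite_empty
    rw [Set.eq_empty_iff_forall_notMem]
    rintro v ⟨x, p, a, e, c, w, B, N, hw, hB, hx, hp, hcop, heq, hyp, hdig, hN, hBN, hdv, rfl⟩
    subst hD
    have h1 : ∀ j, ∃ n, x j ∣ w ^ n := by
      intro j
      refine ⟨a j, ?_⟩
      have h2 := (hdig j).hx
      simp only [univ_eq_empty, sum_empty, add_zero] at h2
      have h3 : x j = w ^ a j := by exact_mod_cast h2
      rw [h3]
    exact absurd (hdv 0 1 (h1 0) (h1 1)) (by decide)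
  rcases Nat.eq_zero_or_pos R with hR | hR
  · refine ⟨0, ?_⟩
    convert Set.finite_empty
    rw [Set.eq_empty_iff_forall_notMem]
    rintro v ⟨x, p, a, e, c, w, B, N, hw, hB, hx, hp, hcop, heq, hyp, hdig, hN, hBN, hdv, rfl⟩
    subst hR
    have h1 : ∀ j, x j = 1 := by
      intro j
      have h2 := hN j
      rw [pow_zero] at h2
      have := hx j
      omega
    rw [h1, h1, h1, one_pow, one_pow, one_pow] at heq
    omega
  obtain ⟨M1, J, hkey⟩ := key D R hD hR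
  obtain ⟨C₁, c₁, hbb⟩ := bases_bound D J
  obtain ⟨C₀, κ, hexps⟩ := exps
  obtain ⟨S₀, hS₀⟩ := polylog_lt (16 * C₀ * D) κ (4 * M1)
  refine ⟨2 * M1 + 2 * (c₁ * R), ?_⟩
  obtain ⟨V, hV⟩ := vals_fin (2 ^ (S₀ + 1) + C₁ ^ (2 * R))
  refine ((Set.finite_Iic V).prod ((Set.finite_Iic V).prod (Set.finite_Iic V))).subset ?_
  rintro v ⟨x, p, a, e, c, w, B, N, hw, hB, hx, hp, hcop, heq, hyp, hdig, hN, hBN, hdv, rfl⟩
  -- first facts
  obtain ⟨h02, h12⟩ : Nat.Coprime (x 0) (x 2) ∧ Nat.Coprime (x 1) (x 2) := by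
    have h1 : Nat.Coprime (x 0 ^ p 0) (x 2 ^ p 2) := by
      rw [← heq, Nat.coprime_self_add_right]
      exact Nat.Coprime.pow _ _ hcop
    have h2 : Nat.Coprime (x 1 ^ p 1) (x 2 ^ p 2) := by
      rw [← heq, Nat.coprime_add_self_right]
      exact (Nat.Coprime.pow _ _ hcop).symm
    rw [Nat.coprime_pow_left_iff (hp 0), Nat.coprime_pow_right_iff (hp 2)] at h1
    rw [Nat.coprime_pow_left_iff (hp 1), Nat.coprime_pow_right_iff (hp 2)] at h2
    exact ⟨h1, h2⟩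
  have hp2 : ∀ j, 2 ≤ p j := by
    have k0 := hp 0
    have k1 := hp 1
    have k2 := hp 2
    have q0 : p 0 ≠ 1 := by
      intro h
      rw [h] at hyp
      simp only [one_mul, mul_one] at hyp
      omega
    have q1 : p 1 ≠ 1 := by
      intro h
      rw [h] at hyp
      simp only [one_mul, mul_one] at hyp
      have : p 2 * p 0 = p 0 * p 2 := mul_comm _ _
      omega
    have q2 : p 2 ≠ 1 := by
      intro h
      rw [h] at hyp
      simp only [one_mul, mul_one] at hyp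
      omega
    intro j
    fin_cases j <;> simp only [Fin.zero_eta, Fin.mk_one, Fin.reduceFinMk] <;> omega
  have hsol : SSol (x 0) (x 1) (x 2) (p 0) (p 1) (p 2) 1 1 (-1) :=
    ⟨hx 0, hx 1, hx 2, hcop, h02, h12, hp2 0, hp2 1, hp2 2, Or.inl rfl, Or.inl rfl, Or.inr rfl, by
      have : (x 0 : ℤ) ^ p 0 + (x 1 : ℤ) ^ p 1 = (x 2 : ℤ) ^ p 2 := by exact_mod_cast heq
      linarith⟩
  have hNV : N ≤ 2 ^ (S₀ + 1) + C₁ ^ (2 * R) → (x 0 ^ p 0, x 1 ^ p 1, x 2 ^ p 2) ∈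
      Set.Iic V ×ˢ Set.Iic V ×ˢ Set.Iic V := by
    intro h
    obtain ⟨v1, v2, v3⟩ := hV (x 0) (x 1) (x 2) (p 0) (p 1) (p 2) 1 1 (-1) hsol
      ((hN 0).1.trans h) ((hN 1).1.trans h) ((hN 2).1.trans h)
    simp only [Set.mem_prod, Set.mem_Iic]
    exact ⟨v1, v2, v3⟩
  have hN2 : 2 ≤ N := by
    by_contra h
    have h1 : ∀ j, x j = 1 := by
      intro j
      have := hx j
      have := (hN j).1
      omega
    rw [h1, h1, h1, one_pow, one_pow, one_pow] at heq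
    omega
  have hx2 : ∀ j, 2 ≤ x j := by
    intro j
    by_contra h
    have h1 : x j = 1 := by have := hx j; omega
    have h2 := (hN j).2
    rw [h1, one_pow] at h2
    omega
  rcases Nat.lt_or_ge (2 ^ (S₀ + 1)) N with hbig | hsm
  swap
  · exact hNV (hsm.trans (Nat.le_add_right _ _))
  -- the exponents
  obtain ⟨S, hS⟩ : ∃ S, S = Nat.log 2 N + 1 := ⟨_, rfl⟩
  have hNS : N < 2 ^ S := by rw [hS]; exact Nat.lt_pow_succ_log_self (by norm_num) N
  have hSN : 2 ^ (S - 1) ≤ N := by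
    rw [hS, Nat.add_sub_cancel]; exact Nat.pow_log_le_self 2 (by omega)
  have hS1 : S₀ + 1 < S := (Nat.pow_lt_pow_iff_right (by norm_num)).1 (hbig.trans hNS)
  have hS2 : 2 ≤ S := by omega
  obtain ⟨E, hE⟩ : ∃ E, E = C₀ * S ^ κ := ⟨_, rfl⟩
  have hpE : ∀ j, p j ≤ E := by
    obtain ⟨b0, b1, b2⟩ := hexps S hS2 _ _ _ _ _ _ _ _ _ hsol ((hN 0).1.trans hNS.le)
      ((hN 1).1.trans hNS.le) ((hN 2).1.trans hNS.le)
    have b0' := b0 (hx2 0)
    have b1' := b1 (hx2 1)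
    have b2' := b2 (hx2 2)
    intro j
    rw [hE]
    fin_cases j
    · exact b0'
    · exact b1'
    · exact b2'
  have hZN : (16 * E * D * B) ^ M1 ≤ N := by
    have h1 := hS₀ S (by omega)
    have h2 : (16 * C₀ * D * S ^ κ) ^ (2 * M1) ≤ N := by
      refine le_trans ?_ hSN
      rw [← Nat.pow_le_pow_iff_left (show 2 ≠ 0 by norm_num), ← pow_mul, ← pow_mul,
        show 2 * M1 * 2 = 4 * M1 by ring]
      exact h1.le.trans (Nat.pow_le_pow_right (by norm_num) (by omega))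
    have h3 : B ^ (2 * M1) ≤ N := (Nat.pow_le_pow_right hB (by omega)).trans hBN
    rw [← Nat.pow_le_pow_iff_left (show 2 ≠ 0 by norm_num)]
    calc ((16 * E * D * B) ^ M1) ^ 2 = (16 * C₀ * D * S ^ κ) ^ (2 * M1) * B ^ (2 * M1) := by
          rw [← mul_pow, ← pow_mul, hE, mul_comm M1 2]
          congr 1
          ring
      _ ≤ N * N := Nat.mul_le_mul h2 h3
      _ = N ^ 2 := (sq N).symm
  have hpJ : ∀ j, p j ≤ J := by
    rcases le_total (x 1 ^ p 1) (x 0 ^ p 0) with hle | hle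
    · exact hkey w N E B x p a e c hw hB hN2 (fun j => ⟨hp2 j, hpE j⟩) hdig hN hZN heq hle h02
        (fun h => absurd (hdv 0 2 h.1 h.2) (by decide))
    · -- exchange the two terms
      obtain ⟨σ, hσ⟩ : ∃ σ : Equiv.Perm (Fin 3), σ = Equiv.swap 0 1 := ⟨_, rfl⟩
      have s0 : σ 0 = 1 := by rw [hσ]; decide
      have s1 : σ 1 = 0 := by rw [hσ]; decide
      have s2 : σ 2 = 2 := by rw [hσ]; decide
      have h := hkey w N E B (fun j => x (σ j)) (fun j => p (σ j)) (fun j => a (σ j))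
        (fun j => e (σ j)) (fun j => c (σ j)) hw hB hN2 (fun j => ⟨hp2 _, hpE _⟩)
        (fun j => hdig _) (fun j => hN _) hZN
        (by rw [s0, s1, s2]; omega)
        (by rw [s0, s1]; exact hle)
        (by rw [s0, s2]; exact h12)
        (by
          rw [s0, s2]
          exact fun h => absurd (hdv 1 2 h.1 h.2) (by decide))
      intro j
      have := h (σ.symm j)
      simpa using this
  have hxb := hbb w B x p a e c hw hB hp hpJ hx (fun j => (hdig j).hc) (fun j => (hdig j).hx) hyp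
    hcop heq
  apply hNV
  have h1 : N ≤ C₁ ^ R * B ^ (c₁ * R) := by
    calc N ≤ x 0 ^ R := (hN 0).2
      _ ≤ (C₁ * B ^ c₁) ^ R := Nat.pow_le_pow_left (hxb 0) _
      _ = C₁ ^ R * B ^ (c₁ * R) := by rw [mul_pow, ← pow_mul]
  have h2 : N * N ≤ C₁ ^ (2 * R) * N := by
    calc N * N ≤ (C₁ ^ R * B ^ (c₁ * R)) * (C₁ ^ R * B ^ (c₁ * R)) := Nat.mul_le_mul h1 h1
      _ = C₁ ^ (2 * R) * B ^ (2 * (c₁ * R)) := by
          rw [two_mul R, two_mul (c₁ * R), pow_add, pow_add]; ring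
      _ ≤ C₁ ^ (2 * R) * N := Nat.mul_le_mul_left _
          ((Nat.pow_le_pow_right hB (by omega)).trans hBN)
  have h3 : N ≤ C₁ ^ (2 * R) := Nat.le_of_mul_le_mul_right h2 (by omega)
  exact h3.trans (Nat.le_add_left _ _)

end Pool.Agent.Run7.h777.FC
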