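import Mathlib
import Pool.Agent.Run7.h777.FC.Core

/-!
High order of vanishing, with coefficients.
-/

set_option autoImplicit false

namespace Pool.Agent.Run7.h777.FC

open Finset Polynomial
open Pool.Agent.N741.FD (proportional)

theorem coreC {w f : ℕ} (hw : 1 ≤ w) {X1 X2 X3 : ℤ[X]} {Φ p1 c p3 k : ℕ} {c1 c2 c3 : ℤ}
    (h1 : X1.coeff 0 = 1) (h2 : X2.coeff 0 = 1) (h3 : X3.coeff 0 = 1) (hc1 : c1 ≠ 0) (hc3 : c3 ≠ 0)
    (d1 : X1.natDegree ≤ Φ) (d2 : X2.natDegree ≤ Φ) (d3 : X3.natDegree ≤ Φ)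
    (hp1 : 2 ≤ p1) (hp3 : 2 ≤ p3)
    {x1 x3 a1 a3 : ℕ} (hx1 : (x1 : ℝ) = (w : ℝ) ^ a1 * aeval (1 / ((w ^ f : ℕ) : ℝ)) X1)
    (hx3 : (x3 : ℝ) = (w : ℝ) ^ a3 * aeval (1 / ((w ^ f : ℕ) : ℝ)) X3) (hcop : Nat.Coprime x1 x3)
    (hF : (X : ℤ[X]) ^ (6 * Φ + 1) ∣ C c1 * X1 ^ p1 + C c2 * (X ^ k * X2 ^ c) - C c3 * X3 ^ p3) :
    (p1 ≤ 2 * Φ + 1 ∨ ∃ n, x1 ∣ w ^ n) ∧ (p3 ≤ 2 * Φ + 1 ∨ ∃ n, x3 ∣ w ^ n) := by
  obtain ⟨a, rfl⟩ := Nat.exists_eq_add_of_le' hp1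
  obtain ⟨b, rfl⟩ := Nat.exists_eq_add_of_le' hp3
  set Y1 := X1.map (Int.castRingHom ℚ) with hY1
  set Y2 := X2.map (Int.castRingHom ℚ) with hY2
  set Y3 := X3.map (Int.castRingHom ℚ) with hY3
  have e1 : Y1.eval 0 = 1 := map_coeff0 h1
  have e2 : Y2.eval 0 = 1 := map_coeff0 h2
  have e3 : Y3.eval 0 = 1 := map_coeff0 h3
  have g : ∀ {P : ℤ[X]}, P.natDegree ≤ Φ → (P.map (Int.castRingHom ℚ)).natDegree ≤ Φ :=
    fun h => natDegree_map_le.trans h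
  have hc1q : (c1 : ℚ) ≠ 0 := by exact_mod_cast hc1
  have hc3q : (c3 : ℚ) / c1 ≠ 0 := div_ne_zero (by exact_mod_cast hc3) hc1q
  have hF' : (X : ℚ[X]) ^ (6 * Φ + 1) ∣
      Y1 ^ (a + 2) + C ((c2 : ℚ) / c1) * (X ^ k * Y2 ^ c) - C ((c3 : ℚ) / c1) * Y3 ^ (b + 2) := by
    have h5 : (X : ℚ[X]) ^ (6 * Φ + 1) ∣
        C (c1 : ℚ) * Y1 ^ (a + 2) + C (c2 : ℚ) * (X ^ k * Y2 ^ c) - C (c3 : ℚ) * Y3 ^ (b + 2) := by
      have := map_dvd (mapRingHom (Int.castRingHom ℚ)) hF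
      simpa using this
    have h6 : Y1 ^ (a + 2) + C ((c2 : ℚ) / c1) * (X ^ k * Y2 ^ c) - C ((c3 : ℚ) / c1) * Y3 ^ (b + 2) =
        C (1 / (c1 : ℚ)) * (C (c1 : ℚ) * Y1 ^ (a + 2) + C (c2 : ℚ) * (X ^ k * Y2 ^ c) -
          C (c3 : ℚ) * Y3 ^ (b + 2)) := by
      have e1 : C (1 / (c1 : ℚ)) * C (c1 : ℚ) = 1 := by
        rw [← C_mul, one_div_mul_cancel hc1q, C_1]
      rw [div_eq_mul_one_div (c2 : ℚ), div_eq_mul_one_div (c3 : ℚ), C_mul, C_mul]
      linear_combination (-(Y1 ^ (a + 2))) * e1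
    rw [h6]
    exact h5.mul_left _
  have n1 : Y1 ≠ 0 := by intro h; rw [h] at e1; simp at e1
  have n2 : Y2 ≠ 0 := by intro h; rw [h] at e2; simp at e2
  have n3 : Y3 ≠ 0 := by intro h; rw [h] at e3; simp at e3
  rcases alg (by rw [e1]; exact one_ne_zero) (by rw [e3]; exact one_ne_zero)
    hc3q (g d1) (g d2) (g d3) hF' with ⟨z1, z3⟩ | ⟨z1, z3, u, v, hu, hv, huv⟩
  · -- the three powers coincide
    have hk : k = 0 := by
      have := congrArg (eval 0) z1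
      simp only [Wx, eval_sub, eval_add, eval_mul, eval_C, eval_X, eval_zero] at this
      rw [map_coeff0 h1, map_coeff0 h2] at this
      have h5 : (k : ℚ) = 0 := by linarith
      exact_mod_cast h5
    subst hk
    have hX : (X : ℚ[X]) ≠ 0 := X_ne_zero
    have q : ∀ {Y : ℚ[X]} {e : ℕ}, Wx 0 c e Y2 Y = 0 →
        C (c : ℚ) * derivative Y2 * Y = C (e : ℚ) * Y2 * derivative Y := by
      intro Y e h
      unfold Wx at h
      have h5 : X * (C (c : ℚ) * derivative Y2 * Y - C (e : ℚ) * Y2 * derivative Y) = 0 := by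
        rw [← h]; simp; ring
      rcases mul_eq_zero.1 h5 with h6 | h6
      · exact absurd h6 hX
      · exact sub_eq_zero.1 h6
    have q1 := q z1
    have q3 := q z3
    have h5 : Y1 ^ (a + 2) * derivative (Y3 ^ (b + 2)) = derivative (Y1 ^ (a + 2)) * Y3 ^ (b + 2) := by
      have h6 : Y2 * (C ((b + 2 : ℕ) : ℚ) * Y1 * derivative Y3 - C ((a + 2 : ℕ) : ℚ) * derivative Y1 * Y3) = 0 := by
        linear_combination Y3 * q1 - Y1 * q3
      rcases mul_eq_zero.1 h6 with h7 | h7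
      · exact absurd h7 n2
      rw [derivative_pow, derivative_pow, show a + 2 - 1 = a + 1 by omega,
        show b + 2 - 1 = b + 1 by omega]
      linear_combination (Y1 ^ (a + 1) * Y3 ^ (b + 1)) * h7
    obtain ⟨u, v, hu, hv, huv⟩ := proportional (pow_ne_zero _ n1) (pow_ne_zero _ n3) h5
    have huv' : v = u := by
      have := congrArg (eval 0) huv
      simpa [e1, e3] using this
    have h6 : Y1 ^ (a + 2) = Y3 ^ (b + 2) := by
      rw [huv'] at huv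
      exact mul_left_cancel₀ (by rwa [Ne, C_eq_zero]) huv
    have h7 : X1 ^ (a + 2) = X3 ^ (b + 2) := by
      apply Polynomial.map_injective (Int.castRingHom ℚ) (Int.castRingHom ℚ).injective_int
      simpa using h6
    have h8 : x1 ^ (a + 2) * w ^ (a3 * (b + 2)) = x3 ^ (b + 2) * w ^ (a1 * (a + 2)) := by
      have h9 : ((x1 : ℝ) ^ (a + 2) * (w : ℝ) ^ (a3 * (b + 2))) =
          (x3 : ℝ) ^ (b + 2) * (w : ℝ) ^ (a1 * (a + 2)) := by
        have h10 := congrArg (aeval (1 / ((w ^ f : ℕ) : ℝ))) h7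
        rw [map_pow, map_pow] at h10
        rw [hx1, hx3, mul_pow, mul_pow, h10, pow_mul, pow_mul]
        ring
      exact_mod_cast h9
    exact ⟨Or.inr (of_pow_eq (by omega) hcop h8), Or.inr (of_pow_eq (by omega) hcop.symm h8.symm)⟩
  · have w1d := Wx_deg (k := 0 + k) (c := c) (p := a + 2) (g d2) (g d1)
    have w3d := Wx_deg (k := 0 + k) (c := c) (p := b + 2) (g d2) (g d3)
    rw [zero_add] at w1d w3d
    constructor
    · rcases Nat.lt_or_ge (2 * Φ + 1) (a + 2) with h | h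
      · right
        obtain ⟨m, hm⟩ := dvd_of_eq n1 z3 hu (by omega) huv
        exact transfer hw h1 h3 hx1 hx3 hcop hm
      · left; exact h
    · rcases Nat.lt_or_ge (2 * Φ + 1) (b + 2) with h | h
      · right
        obtain ⟨m, hm⟩ := dvd_of_eq n3 z1 hv (by omega) huv.symm
        exact transfer hw h3 h1 hx3 hx1 hcop.symm hm
      · left; exact h

end Pool.Agent.Run7.h777.FC
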