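import Mathlib
import Pool.Agent.Run7.h777.FC.Poly

/-!
Sizes of the three terms, with coefficients.
-/

set_option autoImplicit false

namespace Pool.Agent.Run7.h777.FC

open Finset

theorem sizesC {w n0 n1 n2 G : ℕ} {α0 α1 α2 : ℤ} {S0 S1 S2 η : ℝ} (hw : 2 ≤ w) (hG : 1 ≤ G)
    (hα0 : α0 ≠ 0) (hα1 : α1 ≠ 0) (hα2 : α2 ≠ 0) (hG0 : |α0| ≤ G) (hG1 : |α1| ≤ G) (hG2 : |α2| ≤ G)
    (hη0 : 0 ≤ η) (hη : 20 * (G : ℝ) ^ 2 * η ≤ 1)
    (h0 : |S0 - 1| ≤ 2 * η) (h1 : |S1 - 1| ≤ 2 * η) (h2 : |S2 - 1| ≤ 2 * η)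
    (heq : α0 * (S0 * (w : ℝ) ^ n0) + α1 * (S1 * (w : ℝ) ^ n1) + α2 * (S2 * (w : ℝ) ^ n2) = 0)
    (hle1 : |(α1 : ℝ)| * (S1 * (w : ℝ) ^ n1) ≤ |(α0 : ℝ)| * (S0 * (w : ℝ) ^ n0))
    (hle2 : |(α0 : ℝ)| * (S0 * (w : ℝ) ^ n0) ≤ |(α2 : ℝ)| * (S2 * (w : ℝ) ^ n2)) :
    ∃ (c0 c1 c2 : ℤ) (k : ℕ), c0 ≠ 0 ∧ c2 ≠ 0 ∧ |c0| ≤ ((9 * G ^ 3 : ℕ) : ℤ) ∧
      |c1| ≤ ((9 * G ^ 3 : ℕ) : ℤ) ∧ |c2| ≤ ((9 * G ^ 3 : ℕ) : ℤ) ∧
      c0 * S0 + c1 * S1 * (1 / (w : ℝ)) ^ k + c2 * S2 = 0 ∧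
      (k = 0 ∨ 1 ≤ 14 * (G : ℝ) ^ 2 * η * (w : ℝ) ^ k) := by
  have hwr : (2 : ℝ) ≤ w := by exact_mod_cast hw
  have hP : ∀ n, (0 : ℝ) < (w : ℝ) ^ n := fun n => by positivity
  have hGr : (1 : ℝ) ≤ G := by exact_mod_cast hG
  have hG2' : (1 : ℝ) ≤ (G : ℝ) ^ 2 := one_le_pow₀ hGr
  have hη1 : 20 * η ≤ 1 := by nlinarith
  have b0 := abs_le.1 h0
  have b1 := abs_le.1 h1
  have b2 := abs_le.1 h2
  have c0' : (1 : ℝ) ≤ |(α0 : ℝ)| := by exact_mod_cast Int.one_le_abs hα0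
  have c1' : (1 : ℝ) ≤ |(α1 : ℝ)| := by exact_mod_cast Int.one_le_abs hα1
  have c2' : (1 : ℝ) ≤ |(α2 : ℝ)| := by exact_mod_cast Int.one_le_abs hα2
  have g0 : |(α0 : ℝ)| ≤ G := by exact_mod_cast hG0
  have g1 : |(α1 : ℝ)| ≤ G := by exact_mod_cast hG1
  have g2 : |(α2 : ℝ)| ≤ G := by exact_mod_cast hG2
  -- the largest term is at most twice the second
  have hle3 : |(α2 : ℝ)| * (S2 * (w : ℝ) ^ n2) ≤ 2 * (|(α0 : ℝ)| * (S0 * (w : ℝ) ^ n0)) := by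
    have e0 : |(α0 : ℝ) * (S0 * (w : ℝ) ^ n0)| = |(α0 : ℝ)| * (S0 * (w : ℝ) ^ n0) := by
      rw [abs_mul, abs_of_nonneg (mul_nonneg (by linarith) (hP n0).le)]
    have e1 : |(α1 : ℝ) * (S1 * (w : ℝ) ^ n1)| = |(α1 : ℝ)| * (S1 * (w : ℝ) ^ n1) := by
      rw [abs_mul, abs_of_nonneg (mul_nonneg (by linarith) (hP n1).le)]
    have e2 : |(α2 : ℝ) * (S2 * (w : ℝ) ^ n2)| = |(α2 : ℝ)| * (S2 * (w : ℝ) ^ n2) := by
      rw [abs_mul, abs_of_nonneg (mul_nonneg (by linarith) (hP n2).le)]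
    have e3 : (α2 : ℝ) * (S2 * (w : ℝ) ^ n2) =
        -(α0 * (S0 * (w : ℝ) ^ n0) + α1 * (S1 * (w : ℝ) ^ n1)) := by linarith
    rw [← e2, e3, abs_neg]
    refine (abs_add_le _ _).trans ?_
    rw [e0, e1]; linarith
  -- bounds of the coefficient times S
  have u : ∀ {α : ℤ} {S : ℝ}, (1 : ℝ) ≤ |(α : ℝ)| → |(α : ℝ)| ≤ G → |S - 1| ≤ 2 * η →
      1 / 2 ≤ |(α : ℝ)| * S ∧ |(α : ℝ)| * S ≤ 11 / 10 * G := by
    intro α S h3 h4 h5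
    have h6 := abs_le.1 h5
    constructor
    · nlinarith
    · nlinarith
  have u0 := u c0' g0 h0
  have u1 := u c1' g1 h1
  have u2 := u c2' g2 h2
  -- a common exponent
  obtain ⟨m, d0, d2, hd0, hd2, hd0G, hd2G, hm, hmeq⟩ : ∃ (m : ℕ) (d0 d2 : ℤ), d0 ≠ 0 ∧ d2 ≠ 0 ∧
      |(d0 : ℝ)| ≤ 3 * (G : ℝ) ^ 2 ∧ |(d2 : ℝ)| ≤ 3 * (G : ℝ) ^ 2 ∧
      (m ≤ n0 ∧ (w : ℝ) ^ (n0 - m) ≤ 3 * G) ∧
      (w : ℝ) ^ m * (d0 * S0 + d2 * S2) + α1 * (S1 * (w : ℝ) ^ n1) = 0 := by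
    rcases le_total n0 n2 with h | h
    · obtain ⟨s, rfl⟩ := Nat.exists_eq_add_of_le h
      have h3 : (w : ℝ) ^ s ≤ 3 * G := by
        have h4 : |(α2 : ℝ)| * S2 * (w : ℝ) ^ (n0 + s) ≤ 2 * (|(α0 : ℝ)| * S0) * (w : ℝ) ^ n0 := by
          linarith
        have h6 : (w : ℝ) ^ n0 * (|(α2 : ℝ)| * S2 * (w : ℝ) ^ s) ≤
            (w : ℝ) ^ n0 * (2 * (|(α0 : ℝ)| * S0)) := by rw [pow_add] at h4; linarith
        have h7 : |(α2 : ℝ)| * S2 * (w : ℝ) ^ s ≤ 2 * (|(α0 : ℝ)| * S0) :=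
          le_of_mul_le_mul_left h6 (hP _)
        have h8 : 9 / 10 * (w : ℝ) ^ s ≤ |(α2 : ℝ)| * S2 * (w : ℝ) ^ s :=
          mul_le_mul_of_nonneg_right (by nlinarith) (hP s).le
        linarith [u0.2]
      refine ⟨n0, α0, α2 * (w : ℤ) ^ s, hα0, mul_ne_zero hα2 (by positivity), by nlinarith, ?_,
        ⟨le_rfl, by rw [Nat.sub_self, pow_zero]; linarith⟩, ?_⟩
      · push_cast
        rw [abs_mul, abs_of_pos (hP s)]
        calc |(α2 : ℝ)| * (w : ℝ) ^ s ≤ G * (3 * G) :=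
              mul_le_mul g2 h3 (hP s).le (by positivity)
          _ = 3 * (G : ℝ) ^ 2 := by ring
      · push_cast
        rw [pow_add] at heq
        linarith
    · obtain ⟨s, rfl⟩ := Nat.exists_eq_add_of_le h
      have h3 : (w : ℝ) ^ s ≤ 3 * G := by
        have h6 : (w : ℝ) ^ n2 * (|(α0 : ℝ)| * S0 * (w : ℝ) ^ s) ≤
            (w : ℝ) ^ n2 * (|(α2 : ℝ)| * S2) := by rw [pow_add] at hle2; linarith
        have h7 : |(α0 : ℝ)| * S0 * (w : ℝ) ^ s ≤ |(α2 : ℝ)| * S2 :=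
          le_of_mul_le_mul_left h6 (hP _)
        have h8 : 9 / 10 * (w : ℝ) ^ s ≤ |(α0 : ℝ)| * S0 * (w : ℝ) ^ s :=
          mul_le_mul_of_nonneg_right (by nlinarith) (hP s).le
        linarith [u2.2]
      refine ⟨n2, α0 * (w : ℤ) ^ s, α2, mul_ne_zero hα0 (by positivity), hα2, ?_, by nlinarith,
        ⟨by omega, by rw [Nat.add_sub_cancel_left]; exact h3⟩, ?_⟩
      · push_cast
        rw [abs_mul, abs_of_pos (hP s)]
        calc |(α0 : ℝ)| * (w : ℝ) ^ s ≤ G * (3 * G) :=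
              mul_le_mul g0 h3 (hP s).le (by positivity)
          _ = 3 * (G : ℝ) ^ 2 := by ring
      · push_cast
        rw [pow_add] at heq
        linarith
  have hcast : ∀ {c : ℤ}, |(c : ℝ)| ≤ 9 * (G : ℝ) ^ 3 → |c| ≤ ((9 * G ^ 3 : ℕ) : ℤ) := by
    intro c hc
    have : ((|c| : ℤ) : ℝ) ≤ (((9 * G ^ 3 : ℕ) : ℤ) : ℝ) := by
      push_cast; exact hc
    exact_mod_cast this
  have hG3 : (G : ℝ) ^ 2 ≤ (G : ℝ) ^ 3 := pow_le_pow_right₀ hGr (by norm_num)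
  have hG1' : (G : ℝ) ≤ (G : ℝ) ^ 3 := le_self_pow₀ hGr (by norm_num)
  rcases le_total m n1 with h | h
  · obtain ⟨t, rfl⟩ := Nat.exists_eq_add_of_le h
    have h3 : (w : ℝ) ^ t ≤ 9 * (G : ℝ) ^ 2 := by
      have h4 : (w : ℝ) ^ m * (|(α1 : ℝ)| * S1 * (w : ℝ) ^ t) ≤
          (w : ℝ) ^ m * (|(α0 : ℝ)| * S0 * (w : ℝ) ^ (n0 - m)) := by
        have h5 : (w : ℝ) ^ n0 = (w : ℝ) ^ m * (w : ℝ) ^ (n0 - m) := by
          rw [← pow_add]; congr 1; omega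
        rw [pow_add, h5] at hle1
        linarith
      have h5 : |(α1 : ℝ)| * S1 * (w : ℝ) ^ t ≤ |(α0 : ℝ)| * S0 * (w : ℝ) ^ (n0 - m) :=
        le_of_mul_le_mul_left h4 (hP _)
      have h6 : 9 / 10 * (w : ℝ) ^ t ≤ |(α1 : ℝ)| * S1 * (w : ℝ) ^ t :=
        mul_le_mul_of_nonneg_right (by nlinarith) (hP t).le
      have h7 : |(α0 : ℝ)| * S0 * (w : ℝ) ^ (n0 - m) ≤ 11 / 10 * G * (3 * G) :=
        mul_le_mul u0.2 hm.2 (hP _).le (by positivity)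
      nlinarith
    refine ⟨d0, α1 * (w : ℤ) ^ t, d2, 0, hd0, hd2, hcast (by nlinarith), hcast ?_,
      hcast (by nlinarith), ?_, Or.inl rfl⟩
    · push_cast
      rw [abs_mul, abs_of_pos (hP t)]
      calc |(α1 : ℝ)| * (w : ℝ) ^ t ≤ G * (9 * (G : ℝ) ^ 2) :=
            mul_le_mul g1 h3 (hP t).le (by positivity)
        _ = 9 * (G : ℝ) ^ 3 := by ring
    · push_cast
      have h4 : (w : ℝ) ^ m * (d0 * S0 + α1 * (w : ℝ) ^ t * S1 * (1 / (w : ℝ)) ^ 0 + d2 * S2) = 0 := by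
        rw [pow_zero]
        rw [pow_add] at hmeq
        linarith
      exact (mul_eq_zero.1 h4).resolve_left (hP m).ne'
  · obtain ⟨k, rfl⟩ := Nat.exists_eq_add_of_le h
    have hk : (1 / (w : ℝ)) ^ k * (w : ℝ) ^ k = 1 := by
      rw [← mul_pow, one_div, inv_mul_cancel₀ (by positivity), one_pow]
    have hk0 : 0 < (1 / (w : ℝ)) ^ k := by positivity
    have h3 : (d0 * S0 + d2 * S2) * (w : ℝ) ^ k + α1 * S1 = 0 := by
      have h4 : (w : ℝ) ^ n1 * ((d0 * S0 + d2 * S2) * (w : ℝ) ^ k + α1 * S1) = 0 := by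
        rw [pow_add] at hmeq
        linarith
      exact (mul_eq_zero.1 h4).resolve_left (hP n1).ne'
    have h3' : |(d0 : ℝ) * S0 + d2 * S2| * (w : ℝ) ^ k = |(α1 : ℝ)| * S1 := by
      have h4 : (d0 * S0 + d2 * S2) * (w : ℝ) ^ k = -(α1 * S1) := by linarith
      rw [← abs_of_pos (hP k), ← abs_mul, h4, abs_neg, abs_mul, abs_of_nonneg (by linarith : (0 : ℝ) ≤ S1)]
    by_cases hs : d0 + d2 = 0
    · refine ⟨d0, α1, d2, k, hd0, hd2, hcast (by nlinarith), hcast (by linarith),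
        hcast (by nlinarith), ?_, Or.inr ?_⟩
      · have h5 : (w : ℝ) ^ k * (d0 * S0 + α1 * S1 * (1 / (w : ℝ)) ^ k + d2 * S2) = 0 := by
          have h6 : (w : ℝ) ^ k * (d0 * S0 + α1 * S1 * (1 / (w : ℝ)) ^ k + d2 * S2) =
            (d0 * S0 + d2 * S2) * (w : ℝ) ^ k + α1 * S1 * ((1 / (w : ℝ)) ^ k * (w : ℝ) ^ k) := by ring
          rw [h6, hk]; linarith
        exact (mul_eq_zero.1 h5).resolve_left (hP k).ne'
      · have e2 : (d2 : ℝ) = -d0 := by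
          have : (d0 : ℝ) + d2 = 0 := by exact_mod_cast hs
          linarith
        have h5 : |(d0 : ℝ) * S0 + d2 * S2| ≤ 3 * (G : ℝ) ^ 2 * (4 * η) := by
          rw [e2, show (d0 : ℝ) * S0 + -d0 * S2 = d0 * (S0 - S2) by ring, abs_mul]
          apply mul_le_mul hd0G _ (abs_nonneg _) (by positivity)
          rw [abs_le]; constructor <;> linarith
        have h6 : |(d0 : ℝ) * S0 + d2 * S2| * (w : ℝ) ^ k ≤ 3 * (G : ℝ) ^ 2 * (4 * η) * (w : ℝ) ^ k :=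
          mul_le_mul_of_nonneg_right h5 (hP k).le
        have h7 : (9 : ℝ) / 10 ≤ |(α1 : ℝ)| * S1 := by nlinarith
        rw [h3'] at h6
        nlinarith
    · have h4 : (1 : ℝ) ≤ |(d0 : ℝ) + d2| := by
        have : (1 : ℤ) ≤ |d0 + d2| := Int.one_le_abs hs
        exact_mod_cast this
      have h5 : 2 / 5 ≤ |(d0 : ℝ) * S0 + d2 * S2| := by
        have h6 : |(d0 : ℝ) * (S0 - 1) + d2 * (S2 - 1)| ≤ 3 * (G : ℝ) ^ 2 * (2 * η) + 3 * (G : ℝ) ^ 2 * (2 * η) := by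
          refine (abs_add_le _ _).trans (add_le_add ?_ ?_)
          · rw [abs_mul]; exact mul_le_mul hd0G h0 (abs_nonneg _) (by positivity)
          · rw [abs_mul]; exact mul_le_mul hd2G h2 (abs_nonneg _) (by positivity)
        have h7 : |(d0 : ℝ) + d2| ≤ |(d0 : ℝ) * S0 + d2 * S2| + |(d0 : ℝ) * (S0 - 1) + d2 * (S2 - 1)| := by
          have h8 : (d0 : ℝ) + d2 = (d0 * S0 + d2 * S2) - (d0 * (S0 - 1) + d2 * (S2 - 1)) := by ring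
          conv_lhs => rw [h8]
          exact abs_sub _ _
        linarith
      have h6 : (w : ℝ) ^ k ≤ 3 * G := by
        have h7 : 2 / 5 * (w : ℝ) ^ k ≤ |(d0 : ℝ) * S0 + d2 * S2| * (w : ℝ) ^ k :=
          mul_le_mul_of_nonneg_right h5 (hP k).le
        rw [h3'] at h7
        linarith [u1.2]
      have hdk : ∀ {d : ℤ}, |(d : ℝ)| ≤ 3 * (G : ℝ) ^ 2 → |d * (w : ℤ) ^ k| ≤ ((9 * G ^ 3 : ℕ) : ℤ) := by
        intro d hd
        apply hcast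
        push_cast
        rw [abs_mul, abs_of_pos (hP k)]
        calc |(d : ℝ)| * (w : ℝ) ^ k ≤ 3 * (G : ℝ) ^ 2 * (3 * G) :=
              mul_le_mul hd h6 (hP k).le (by positivity)
          _ = 9 * (G : ℝ) ^ 3 := by ring
      refine ⟨d0 * (w : ℤ) ^ k, α1, d2 * (w : ℤ) ^ k, 0, mul_ne_zero hd0 (by positivity),
        mul_ne_zero hd2 (by positivity), hdk hd0G, hcast (by linarith), hdk hd2G, ?_, Or.inl rfl⟩
      push_cast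
      rw [pow_zero]
      linarith

end Pool.Agent.Run7.h777.FC
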