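import Mathlib
import Pool.Agent.Run7.h777.FC.KeyC2
import Pool.Agent.Run7.h777.FC.SizesC

/-!
Bounded exponents: the complete case distinction, with coefficients.
-/

set_option autoImplicit false

namespace Pool.Agent.Run7.h777.FC

open Finset Polynomial

/-- bounded exponents of one outer term give bounded exponents -/
theorem all_of_oneC {N R T B : ℕ} {x p : Fin 3 → ℕ} {α : Fin 3 → ℤ} (hN : 2 ≤ N) (hBN : B ≤ N)
    (hxN : ∀ j, x j ≤ N ∧ N ≤ x j ^ R) (hα : ∀ j, α j ≠ 0 ∧ |α j| ≤ B)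
    (heq : α 0 * (x 0 : ℤ) ^ p 0 + α 1 * (x 1 : ℤ) ^ p 1 + α 2 * (x 2 : ℤ) ^ p 2 = 0)
    (hle1 : |α 1| * (x 1 : ℤ) ^ p 1 ≤ |α 0| * (x 0 : ℤ) ^ p 0)
    (hle2 : |α 0| * (x 0 : ℤ) ^ p 0 ≤ |α 2| * (x 2 : ℤ) ^ p 2)
    (h : p 0 ≤ T ∨ p 2 ≤ T) (j : Fin 3) : p j ≤ (T + 2) * R := by
  have hx : ∀ j, (0 : ℤ) ≤ (x j : ℤ) ^ p j := fun j => by positivity
  have hle3 : |α 2| * (x 2 : ℤ) ^ p 2 ≤ 2 * (|α 0| * (x 0 : ℤ) ^ p 0) := by
    have e3 : α 2 * (x 2 : ℤ) ^ p 2 = -(α 0 * (x 0 : ℤ) ^ p 0 + α 1 * (x 1 : ℤ) ^ p 1) := by linarith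
    have e : ∀ j, |α j * (x j : ℤ) ^ p j| = |α j| * (x j : ℤ) ^ p j := fun j => by
      rw [abs_mul, abs_of_nonneg (hx j)]
    rw [← e 2, e3, abs_neg]
    refine (abs_add_le _ _).trans ?_
    rw [e, e]; linarith
  have hall : ∀ j, |α j| * (x j : ℤ) ^ p j ≤ |α 2| * (x 2 : ℤ) ^ p 2 := by
    intro j
    fin_cases j
    · exact hle2
    · exact hle1.trans hle2
    · exact le_rfl
  have h2 : ∀ i, p i ≤ T → |α i| * (x i : ℤ) ^ p i ≤ N * (N : ℤ) ^ T := by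
    intro i hi
    have h3 : (x i : ℤ) ^ p i ≤ (N : ℤ) ^ T := by
      exact_mod_cast (Nat.pow_le_pow_left (hxN i).1 _).trans (Nat.pow_le_pow_right (by omega) hi)
    apply mul_le_mul ((hα i).2.trans (by exact_mod_cast hBN)) h3 (hx i) (by positivity)
  have hNz : (2 : ℤ) ≤ N := by exact_mod_cast hN
  have hNT : (0 : ℤ) ≤ (N : ℤ) ^ T := by positivity
  have h1 : |α j| * (x j : ℤ) ^ p j ≤ (N : ℤ) ^ (T + 2) := by
    have h5 : (N : ℤ) ^ (T + 2) = N * (N * (N : ℤ) ^ T) := by rw [pow_add]; ring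
    rw [h5]
    have h6 : 2 * (N * (N : ℤ) ^ T) ≤ N * (N * (N : ℤ) ^ T) :=
      mul_le_mul_of_nonneg_right hNz (by positivity)
    have h7 : (0 : ℤ) ≤ N * (N : ℤ) ^ T := by positivity
    rcases h with h | h
    · have h3 := h2 0 h
      have h4 := hall j
      linarith
    · have h3 := h2 2 h
      have h4 := hall j
      linarith
  have h3 : (x j : ℤ) ^ p j ≤ (N : ℤ) ^ (T + 2) :=
    (le_mul_of_one_le_left (hx j) (Int.one_le_abs (hα j).1)).trans h1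
  have h4 : x j ^ p j ≤ N ^ (T + 2) := by exact_mod_cast h3
  have h5 : N ^ p j ≤ N ^ ((T + 2) * R) := by
    calc N ^ p j ≤ (x j ^ R) ^ p j := Nat.pow_le_pow_left (hxN j).2 _
      _ = (x j ^ p j) ^ R := by rw [← pow_mul, ← pow_mul, mul_comm]
      _ ≤ (N ^ (T + 2)) ^ R := Nat.pow_le_pow_left h4 _
      _ = N ^ ((T + 2) * R) := by rw [← pow_mul]
  exact (Nat.pow_le_pow_iff_right (by omega)).1 h5

theorem keyC (D R : ℕ) (hD : 1 ≤ D) (hR : 1 ≤ R) : ∃ M1 J : ℕ, ∀ (w N E B : ℕ) (α : Fin 3 → ℤ)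
    (x p a : Fin 3 → ℕ) (e : Fin 3 → Fin D → ℕ) (c : Fin 3 → Fin D → ℤ), 2 ≤ w → 1 ≤ B → 2 ≤ N →
    (∀ j, 2 ≤ p j ∧ p j ≤ E) → (∀ j, Dig w D R B (x j) (a j) (e j) (c j)) →
    (∀ j, x j ≤ N ∧ N ≤ x j ^ R) → (16 * E * D * B) ^ M1 ≤ N →
    (∀ j, α j ≠ 0 ∧ |α j| ≤ B) →
    α 0 * (x 0 : ℤ) ^ p 0 + α 1 * (x 1 : ℤ) ^ p 1 + α 2 * (x 2 : ℤ) ^ p 2 = 0 →
    |α 1| * (x 1 : ℤ) ^ p 1 ≤ |α 0| * (x 0 : ℤ) ^ p 0 →
    |α 0| * (x 0 : ℤ) ^ p 0 ≤ |α 2| * (x 2 : ℤ) ^ p 2 → Nat.Coprime (x 0) (x 2) →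
    ¬ ((∃ n, x 0 ∣ w ^ n) ∧ ∃ n, x 2 ∣ w ^ n) → ∀ j, p j ≤ J := by
  obtain ⟨A, hA⟩ : ∃ A, A = 4 * R ^ 2 + 1 := ⟨_, rfl⟩
  obtain ⟨M0, hM0⟩ : ∃ M0, M0 = 6 * A + 2 := ⟨_, rfl⟩
  obtain ⟨Q, hQ⟩ := dir' D (40 * A) (2 * (M0 + 1)) (by omega) (by omega)
  refine ⟨12 * R ^ 2 + 4 * R ^ 2 * (M0 + 3) * Q, (4 * (A * Q) + 1 + 2) * R, ?_⟩
  intro w N E B α x p a e c hw hB hN hp hdig hxN hZN hα heq hle1 hle2 hcop hndvd
  have hR0 : 1 ≤ R ^ 2 := Nat.one_le_pow _ _ hR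
  have hEDB0 : 1 ≤ E * D * B :=
    Nat.mul_pos (Nat.mul_pos (by have := hp 0; omega) hD) hB
  have hBN : B ≤ N := by
    have h1 : B ≤ 16 * E * D * B := by
      rw [show 16 * E * D * B = (16 * E * D) * B by ring]
      exact Nat.le_mul_of_pos_left _ (Nat.mul_pos (by have := hp 0; omega) hD)
    have h2 : 16 * E * D * B ≤ (16 * E * D * B) ^ (12 * R ^ 2 + 4 * R ^ 2 * (M0 + 3) * Q) :=
      Nat.le_self_pow (by omega) _
    exact (h1.trans h2).trans hZN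
  refine all_of_oneC hN hBN hxN hα heq hle1 hle2 ?_
  have hE : 2 ≤ E := (hp 0).1.trans (hp 0).2
  obtain ⟨Z, hZ⟩ : ∃ Z, Z = 16 * E * D * B := ⟨_, rfl⟩
  rw [← hZ] at hZN
  have hEDB : 1 ≤ E * D * B := Nat.mul_pos (Nat.mul_pos (by omega) hD) hB
  have hZ1 : 1 ≤ Z := by rw [hZ]; nlinarith
  have hZp : ∀ n, n ≤ 12 * R ^ 2 + 4 * R ^ 2 * (M0 + 3) * Q → Z ^ n ≤ N := fun n hn =>
    (Nat.pow_le_pow_right hZ1 hn).trans hZN
  have hR2 : R ≤ R ^ 2 := Nat.le_self_pow (by norm_num) R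
  have hR1 : 1 ≤ R ^ 2 := hR.trans hR2
  -- the leading position
  have hxa : ∀ j, x j ≤ Z * w ^ a j := by
    intro j
    have h1 := (hdig j).close (by omega) (g := 0) (fun i => Nat.zero_le _)
    rw [pow_zero, mul_one] at h1
    have h2 : (x j : ℤ) ≤ (1 + D * B) * (w : ℤ) ^ a j := by
      have := le_abs_self ((x j : ℤ) - (w : ℤ) ^ a j)
      linarith
    have h3 : x j ≤ (1 + D * B) * w ^ a j := by exact_mod_cast h2
    refine h3.trans (Nat.mul_le_mul_right _ ?_)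
    have h4 : 1 ≤ D * B := Nat.mul_pos hD hB
    calc 1 + D * B ≤ 2 * (D * B) := by omega
      _ ≤ (16 * E) * (D * B) := Nat.mul_le_mul_right _ (by omega)
      _ = Z := by rw [hZ]; ring
  have hNa : ∀ j, N ≤ w ^ (2 * R * a j) := by
    intro j
    have h1 : N ≤ Z ^ R * w ^ (a j * R) := by
      calc N ≤ x j ^ R := (hxN j).2
        _ ≤ (Z * w ^ a j) ^ R := Nat.pow_le_pow_left (hxa j) _
        _ = Z ^ R * w ^ (a j * R) := by rw [mul_pow, ← pow_mul]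
    have h2 : N * N ≤ N * w ^ (2 * R * a j) := by
      calc N * N ≤ (Z ^ R * w ^ (a j * R)) * (Z ^ R * w ^ (a j * R)) := Nat.mul_le_mul h1 h1
        _ = Z ^ (2 * R) * w ^ (2 * R * a j) := by
            rw [show 2 * R = R + R by ring, show (R + R) * a j = a j * R + a j * R by ring, pow_add,
              pow_add]; ring
        _ ≤ N * w ^ (2 * R * a j) := Nat.mul_le_mul_right _ (hZp _ (by
            have : 0 ≤ 4 * R ^ 2 * (M0 + 3) * Q := Nat.zero_le _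
            omega))
    exact Nat.le_of_mul_le_mul_left h2 (by omega)
  have hNu : ∀ j i, N ≤ w ^ (2 * R ^ 2 * (a j - e j i)) := by
    intro j i
    refine (hNa j).trans (Nat.pow_le_pow_right (by omega) ?_)
    calc 2 * R * a j ≤ 2 * R * (R * (a j - e j i)) := Nat.mul_le_mul_left _ ((hdig j).he i).2
      _ = _ := by ring
  have : Nonempty (Fin D) := ⟨⟨0, hD⟩⟩
  obtain ⟨⟨j0, i0⟩, hmin⟩ := Finite.exists_min (fun ji : Fin 3 × Fin D => a ji.1 - e ji.1 ji.2)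
  obtain ⟨g, hg⟩ : ∃ g, g = a j0 - e j0 i0 := ⟨_, rfl⟩
  have hgu : ∀ j i, g ≤ a j - e j i := fun j i => by rw [hg]; exact hmin (j, i)
  have hNg : N ≤ w ^ (2 * R ^ 2 * g) := by rw [hg]; exact hNu _ _
  have hg1 : 1 ≤ g := by
    by_contra h0
    have h1 : g = 0 := by omega
    rw [h1, mul_zero, pow_zero] at hNg
    omega
  have hZg : Z ^ 6 ≤ w ^ g := by
    rw [← Nat.pow_le_pow_iff_left (show 2 * R ^ 2 ≠ 0 by omega), ← pow_mul, ← pow_mul]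
    calc Z ^ (6 * (2 * R ^ 2)) ≤ N := hZp _ (by
          have : 0 ≤ 4 * R ^ 2 * (M0 + 3) * Q := Nat.zero_le _
          omega)
      _ ≤ w ^ (2 * R ^ 2 * g) := hNg
      _ = w ^ (g * (2 * R ^ 2)) := by rw [mul_comm]
  -- real sizes
  have hwr : (2 : ℝ) ≤ w := by exact_mod_cast hw
  have hwp : ∀ n, (0 : ℝ) < (w : ℝ) ^ n := fun n => by positivity
  obtain ⟨ε, hε⟩ : ∃ ε : ℝ, ε = D * B / (w : ℝ) ^ g := ⟨_, rfl⟩
  have hε0 : 0 ≤ ε := by rw [hε]; positivity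
  have hZgr : (16 * E * D * B : ℝ) ≤ (w : ℝ) ^ g := by
    have h1 : Z ≤ w ^ g := (Nat.le_self_pow (by norm_num) Z).trans hZg
    rw [hZ] at h1
    exact_mod_cast h1
  have hEε : (E : ℝ) * ε ≤ 1 / 16 := by
    rw [hε, mul_div_assoc', div_le_iff₀ (hwp g)]
    linarith
  have hEr : (2 : ℝ) ≤ E := by exact_mod_cast hE
  have hε1 : ε ≤ 1 / 16 := by nlinarith
  have hclose : ∀ j, |(x j : ℝ) / (w : ℝ) ^ a j - 1| ≤ ε := by
    intro j
    have h1 := (hdig j).close (by omega) (g := g) (hgu j)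
    have h2 : |(x j : ℝ) - (w : ℝ) ^ a j| * (w : ℝ) ^ g ≤ D * B * (w : ℝ) ^ a j := by
      exact_mod_cast h1
    have h3 : (x j : ℝ) / (w : ℝ) ^ a j - 1 = ((x j : ℝ) - (w : ℝ) ^ a j) / (w : ℝ) ^ a j := by
      rw [sub_div, div_self (hwp _).ne']
    rw [h3, abs_div, abs_of_pos (hwp _), hε, div_le_div_iff₀ (hwp _) (hwp _)]
    exact h2
  have haN : ∀ j, a j ≤ 4 * R ^ 2 * g := by
    intro j
    have h1 := (abs_le.1 (hclose j)).1
    have h2 : (1 : ℝ) / 2 ≤ (x j : ℝ) / (w : ℝ) ^ a j := by linarith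
    rw [le_div_iff₀ (hwp _)] at h2
    have h3 : (w : ℝ) ^ a j ≤ 2 * x j := by linarith
    have h4 : w ^ a j ≤ 2 * x j := by exact_mod_cast h3
    have h5 : w ^ a j ≤ w ^ (4 * R ^ 2 * g) := by
      calc w ^ a j ≤ 2 * x j := h4
        _ ≤ N * N := Nat.mul_le_mul hN (hxN j).1
        _ ≤ w ^ (2 * R ^ 2 * g) * w ^ (2 * R ^ 2 * g) := Nat.mul_le_mul hNg hNg
        _ = w ^ (4 * R ^ 2 * g) := by rw [← pow_add]; congr 1; ring
    exact (Nat.pow_le_pow_iff_right (by omega)).1 h5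
  obtain ⟨S, hS⟩ : ∃ S : Fin 3 → ℝ, S = fun j => ((x j : ℝ) / (w : ℝ) ^ (a j)) ^ p j := ⟨_, rfl⟩
  have hS' : ∀ j, S j = ((x j : ℝ) / (w : ℝ) ^ (a j)) ^ p j := fun j => by rw [hS]
  have hS1 : ∀ j, |S j - 1| ≤ 2 * (E * ε) := by
    intro j
    rw [hS']
    exact near_one hε0 (hclose j) (by exact_mod_cast (hp j).2) hEε hε1
  have hSx : ∀ j, S j * (w : ℝ) ^ (a j * p j) = (x j : ℝ) ^ p j := by
    intro j
    rw [hS', pow_mul, ← mul_pow, div_mul_cancel₀ _ (hwp _).ne']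
  have heq' : α 0 * (S 0 * (w : ℝ) ^ (a 0 * p 0)) + α 1 * (S 1 * (w : ℝ) ^ (a 1 * p 1)) +
      α 2 * (S 2 * (w : ℝ) ^ (a 2 * p 2)) = 0 := by
    rw [hSx, hSx, hSx]; exact_mod_cast heq
  have hle1' : |(α 1 : ℝ)| * (S 1 * (w : ℝ) ^ (a 1 * p 1)) ≤
      |(α 0 : ℝ)| * (S 0 * (w : ℝ) ^ (a 0 * p 0)) := by
    rw [hSx, hSx]; exact_mod_cast hle1
  have hle2' : |(α 0 : ℝ)| * (S 0 * (w : ℝ) ^ (a 0 * p 0)) ≤
      |(α 2 : ℝ)| * (S 2 * (w : ℝ) ^ (a 2 * p 2)) := by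
    rw [hSx, hSx]; exact_mod_cast hle2
  have hZB : 16 * B ≤ Z := by
    rw [hZ]
    calc 16 * B = 16 * (1 * 1 * B) := by ring
      _ ≤ 16 * (E * D * B) := by gcongr <;> omega
      _ = 16 * E * D * B := by ring
  have hεg : ε * (w : ℝ) ^ g = D * B := by rw [hε]; field_simp
  have hηG : 20 * (B : ℝ) ^ 2 * (E * ε) ≤ 1 := by
    have h1 : 20 * B ^ 2 * (E * (D * B)) ≤ w ^ g := by
      calc 20 * B ^ 2 * (E * (D * B)) ≤ (16 * B) ^ 2 * (16 * (E * (D * B))) := by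
            apply Nat.mul_le_mul
            · rw [mul_pow]; exact Nat.mul_le_mul_right _ (by norm_num)
            · exact Nat.le_mul_of_pos_left _ (by norm_num)
        _ ≤ Z ^ 2 * Z := by
            apply Nat.mul_le_mul (Nat.pow_le_pow_left hZB 2)
            rw [hZ]; exact le_of_eq (by ring)
        _ = Z ^ 3 := (pow_succ Z 2).symm
        _ ≤ Z ^ 6 := Nat.pow_le_pow_right hZ1 (by norm_num)
        _ ≤ w ^ g := hZg
    have h2 : 20 * (B : ℝ) ^ 2 * (E * (D * B)) ≤ (w : ℝ) ^ g := by exact_mod_cast h1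
    rw [← hεg] at h2
    have h3 : 20 * (B : ℝ) ^ 2 * (E * ε) * (w : ℝ) ^ g ≤ 1 * (w : ℝ) ^ g := by linarith
    exact le_of_mul_le_mul_right h3 (hwp g)
  obtain ⟨c0, c1, c2, k, hc0, hc2, b0, b1, b2, hsum, hk⟩ := sizesC hw hB (hα 0).1 (hα 1).1 (hα 2).1
    (hα 0).2 (hα 1).2 (hα 2).2 (by positivity) hηG (hS1 0) (hS1 1) (hS1 2) heq' hle1' hle2'
  have hZW : ∀ f, g ≤ Q * f → (16 * E * D * B) ^ (2 * (M0 + 3)) ≤ w ^ f := by
    intro f hf
    have hQ1 : 1 ≤ Q := by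
      rcases Nat.eq_zero_or_pos Q with h0 | h0
      · rw [h0] at hf; omega
      · exact h0
    rw [← hZ, ← Nat.pow_le_pow_iff_left (show 2 * R ^ 2 * Q ≠ 0 by positivity), ← pow_mul, ← pow_mul]
    calc Z ^ (2 * (M0 + 3) * (2 * R ^ 2 * Q)) ≤ N := hZp _ (by
          have : 2 * (M0 + 3) * (2 * R ^ 2 * Q) = 4 * R ^ 2 * (M0 + 3) * Q := by ring
          omega)
      _ ≤ w ^ (2 * R ^ 2 * g) := hNg
      _ ≤ w ^ (2 * R ^ 2 * (Q * f)) := Nat.pow_le_pow_right (by omega) (Nat.mul_le_mul_left _ hf)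
      _ = w ^ (f * (2 * R ^ 2 * Q)) := by congr 1; ring
  have hA1 : 5 ≤ A := by omega
  have hplace := fun (k' : ℕ) h1 h2 h3 => placeC (k' := k') hD hA hM0 hw hB hg1 hp hdig hcop hndvd hgu
    (fun j i => (Nat.sub_le _ _).trans (haN j)) ⟨j0, i0, hg.symm⟩ hZW hQ hS' h1 h2 h3
  have hWp : ∀ f : ℕ, (0 : ℝ) < ((w ^ f : ℕ) : ℝ) := fun f => by
    push_cast; exact hwp f
  have hYb : ∀ {Y : ℕ}, 1 ≤ Y → ((9 * B ^ 3 : ℕ) : ℤ) ≤ ((9 * B ^ 3 * Y : ℕ) : ℤ) := fun hY1 => by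
    exact_mod_cast Nat.le_mul_of_pos_right _ hY1
  have hnc2 : -c2 ≠ 0 := neg_ne_zero.2 hc2
  have hnb2 : |-c2| ≤ ((9 * B ^ 3 : ℕ) : ℤ) := by rw [abs_neg]; exact b2
  have hg20 : g ≤ 20 * A * g := by
    calc g = 1 * g := (one_mul g).symm
      _ ≤ 20 * A * g := Nat.mul_le_mul_right _ (by omega)
  rcases hk with rfl | hk2
  · -- all terms have the same size
    refine hplace g (by omega) hg20 ?_
    intro f m0 l0 Y K _ _ hY1 _
    refine ⟨0, c0, c1, -c2, hc0, hnc2, b0, b1.trans (hYb hY1), hnb2, ?_⟩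
    have h2 : (c0 : ℝ) * S 0 + c1 * (1 / ((w ^ f : ℕ) : ℝ)) ^ 0 * S 1 - ((-c2 : ℤ) : ℝ) * S 2 = 0 := by
      rw [pow_zero] at hsum ⊢
      push_cast; linarith
    rw [h2, abs_zero]
    have := hWp f
    positivity
  · rcases Nat.lt_or_ge (20 * A * g) k with hfar | hnear
    · -- the second term is negligible
      refine hplace g (by omega) hg20 ?_
      intro f m0 l0 Y K _ _ hY1 hfK
      refine ⟨0, c0, 0, -c2, hc0, hnc2, b0, by rw [abs_zero]; positivity, hnb2, ?_⟩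
      have h1 : (c0 : ℝ) * S 0 + ((0 : ℤ) : ℝ) * (1 / ((w ^ f : ℕ) : ℝ)) ^ 0 * S 1 -
          ((-c2 : ℤ) : ℝ) * S 2 = - (c1 * (S 1 * (1 / (w : ℝ)) ^ k)) := by
        push_cast; linarith
      rw [h1, abs_neg, abs_mul]
      have h2 := abs_le.1 (hS1 1)
      have h3 : f * K + g ≤ k := by
        have : 14 * A * g + g ≤ 20 * A * g := by
          have e1 : 14 * A * g + g = (14 * A + 1) * g := by ring
          rw [e1]
          exact Nat.mul_le_mul_right _ (by omega)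
        omega
      have hw1 : 0 < 1 / (w : ℝ) := by positivity
      have hw2 : 1 / (w : ℝ) ≤ 1 := by
        rw [div_le_one (by positivity)]; linarith
      have h4 : (1 / (w : ℝ)) ^ k ≤ (1 / (w : ℝ)) ^ (f * K) * (1 / (w : ℝ)) ^ g := by
        rw [← pow_add]
        exact pow_le_pow_of_le_one hw1.le hw2 h3
      have h5 : (1 / ((w ^ f : ℕ) : ℝ)) ^ K = (1 / (w : ℝ)) ^ (f * K) := by
        push_cast
        rw [pow_mul, one_div_pow (w : ℝ) f]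
      have hb1 : |(c1 : ℝ)| ≤ 9 * (B : ℝ) ^ 3 := by exact_mod_cast b1
      have h6 : 9 * (B : ℝ) ^ 3 * 2 * (1 / (w : ℝ)) ^ g ≤ 1 := by
        have h7 : 9 * B ^ 3 * 2 ≤ w ^ g := by
          calc 9 * B ^ 3 * 2 ≤ (16 * B) ^ 3 := by rw [mul_pow]; nlinarith [Nat.zero_le (B ^ 3)]
            _ ≤ Z ^ 3 := Nat.pow_le_pow_left hZB 3
            _ ≤ Z ^ 6 := Nat.pow_le_pow_right hZ1 (by norm_num)
            _ ≤ w ^ g := hZg
        have h8 : 9 * (B : ℝ) ^ 3 * 2 ≤ (w : ℝ) ^ g := by exact_mod_cast h7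
        rw [one_div_pow, mul_one_div, div_le_one (hwp g)]
        exact h8
      rw [h5, abs_of_nonneg (mul_nonneg (by linarith : (0 : ℝ) ≤ S 1)
        (by positivity : (0 : ℝ) ≤ (1 / (w : ℝ)) ^ k))]
      have h9 : 0 < (1 / (w : ℝ)) ^ (f * K) := by positivity
      calc |(c1 : ℝ)| * (S 1 * (1 / (w : ℝ)) ^ k)
          ≤ 9 * (B : ℝ) ^ 3 * (2 * ((1 / (w : ℝ)) ^ (f * K) * (1 / (w : ℝ)) ^ g)) := by
            apply mul_le_mul hb1 _ (mul_nonneg (by linarith) (by positivity)) (by positivity)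
            exact mul_le_mul (by linarith) h4 (by positivity) (by norm_num)
        _ = (1 / (w : ℝ)) ^ (f * K) * (9 * (B : ℝ) ^ 3 * 2 * (1 / (w : ℝ)) ^ g) := by ring
        _ ≤ (1 / (w : ℝ)) ^ (f * K) * 1 := mul_le_mul_of_nonneg_left h6 h9.le
        _ = _ := mul_one _
    · -- the second term is visible
      refine hplace k ?_ hnear ?_
      · -- `g ≤ 2 k`
        have h1 : (w : ℝ) ^ g ≤ 14 * (B : ℝ) ^ 2 * (E * (D * B)) * (w : ℝ) ^ k := by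
          have h3 : 1 * (w : ℝ) ^ g ≤ (14 * (B : ℝ) ^ 2 * (E * ε) * (w : ℝ) ^ k) * (w : ℝ) ^ g :=
            mul_le_mul_of_nonneg_right hk2 (hwp g).le
          calc (w : ℝ) ^ g = 1 * (w : ℝ) ^ g := (one_mul _).symm
            _ ≤ (14 * (B : ℝ) ^ 2 * (E * ε) * (w : ℝ) ^ k) * (w : ℝ) ^ g := h3
            _ = 14 * (B : ℝ) ^ 2 * (E * (ε * (w : ℝ) ^ g)) * (w : ℝ) ^ k := by ring
            _ = _ := by rw [hεg]
        have h2 : w ^ g ≤ 14 * B ^ 2 * (E * (D * B)) * w ^ k := by exact_mod_cast h1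
        have h3 : w ^ g ≤ Z ^ 3 * w ^ k := by
          refine h2.trans (Nat.mul_le_mul_right _ ?_)
          calc 14 * B ^ 2 * (E * (D * B)) ≤ (16 * B) ^ 2 * (16 * (E * (D * B))) := by
                apply Nat.mul_le_mul
                · rw [mul_pow]; exact Nat.mul_le_mul_right _ (by norm_num)
                · exact Nat.le_mul_of_pos_left _ (by norm_num)
            _ ≤ Z ^ 2 * Z := by
                apply Nat.mul_le_mul (Nat.pow_le_pow_left hZB 2)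
                rw [hZ]; exact le_of_eq (by ring)
            _ = Z ^ 3 := (pow_succ Z 2).symm
        have h4 : w ^ (2 * g) ≤ w ^ (g + 2 * k) := by
          calc w ^ (2 * g) = w ^ g * w ^ g := by rw [← pow_add]; congr 1; ring
            _ ≤ (Z ^ 3 * w ^ k) * (Z ^ 3 * w ^ k) := Nat.mul_le_mul h3 h3
            _ = Z ^ 6 * (w ^ k * w ^ k) := by ring
            _ ≤ w ^ g * (w ^ k * w ^ k) := Nat.mul_le_mul_right _ hZg
            _ = w ^ (g + 2 * k) := by rw [← pow_add, ← pow_add]; congr 1; ring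
        have h5 := (Nat.pow_le_pow_iff_right (by omega)).1 h4
        omega
      · intro f m0 l0 Y K hkf hlY hY1 _
        refine ⟨m0, c0, c1 * (w : ℤ) ^ l0, -c2, hc0, hnc2, b0, ?_, hnb2, ?_⟩
        · rw [abs_mul, abs_of_nonneg (by positivity : (0 : ℤ) ≤ (w : ℤ) ^ l0), Nat.cast_mul]
          apply mul_le_mul b1 _ (by positivity) (by positivity)
          exact_mod_cast hlY
        · have h1 : ((w : ℝ) ^ l0) * (1 / ((w ^ f : ℕ) : ℝ)) ^ m0 = (1 / (w : ℝ)) ^ k := by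
            push_cast
            have h2 : (w : ℝ) ^ k * (w : ℝ) ^ l0 = ((w : ℝ) ^ f) ^ m0 := by
              rw [← pow_add, hkf, pow_mul]
            rw [one_div_pow, one_div_pow, mul_one_div, div_eq_div_iff (by positivity) (by positivity),
              ← h2]
            ring
          have h2 : (c0 : ℝ) * S 0 + ((c1 * (w : ℤ) ^ l0 : ℤ) : ℝ) * (1 / ((w ^ f : ℕ) : ℝ)) ^ m0 * S 1 -
              ((-c2 : ℤ) : ℝ) * S 2 = 0 := by
            have h3 : ((c1 * (w : ℤ) ^ l0 : ℤ) : ℝ) * (1 / ((w ^ f : ℕ) : ℝ)) ^ m0 =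
                c1 * (1 / (w : ℝ)) ^ k := by
              rw [← h1]; push_cast; ring
            rw [h3]
            push_cast; linarith
          rw [h2, abs_zero]
          have := hWp f
          positivity

end Pool.Agent.Run7.h777.FC
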