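import Mathlib
import Pool.Agent.Run7.h777.FC.KeyC3
import Pool.Agent.Run7.h777.FC.Main

/-!
Finiteness of the solutions with small coefficients and exponents whose bases have few digits and an
isolated leading digit.
-/

set_option autoImplicit false

namespace Pool.Agent.Run7.h777.FC

open Finset Polynomial

theorem PB.add {g h : ℕ → ℕ} (hg : PB g) (hh : PB h) : PB fun B => g B + h B := by
  obtain ⟨C, c, h1⟩ := hg
  obtain ⟨C', c', h2⟩ := hh
  refine ⟨C + C', c + c', fun B hB => ?_⟩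
  calc g B + h B ≤ C * B ^ c + C' * B ^ c' := Nat.add_le_add (h1 B hB) (h2 B hB)
    _ ≤ C * B ^ (c + c') + C' * B ^ (c + c') := by
        apply Nat.add_le_add <;> apply Nat.mul_le_mul_left <;> apply Nat.pow_le_pow_right hB <;> omega
    _ = (C + C') * B ^ (c + c') := by ring

/-- bounded exponents: the bases are bounded by a polynomial in the size of the digits and coefficients -/
theorem bases_boundC (D J : ℕ) : ∃ C c : ℕ, ∀ (w B : ℕ) (α : Fin 3 → ℤ) (x p a : Fin 3 → ℕ)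
    (e : Fin 3 → Fin D → ℕ) (q : Fin 3 → Fin D → ℤ), 2 ≤ w → 1 ≤ B → (∀ j, 1 ≤ p j) →
    (∀ j, p j ≤ J) → (∀ j, 1 ≤ x j) → (∀ j, α j ≠ 0 ∧ |α j| ≤ B) →
    (∀ j i, |q j i| ≤ B) → (∀ j, (x j : ℤ) = (w : ℤ) ^ a j + ∑ i, q j i * (w : ℤ) ^ (e j i)) →
    p 1 * p 2 + p 2 * p 0 + p 0 * p 1 ≤ p 0 * p 1 * p 2 → Nat.Coprime (x 0) (x 1) →
    α 0 * (x 0 : ℤ) ^ p 0 + α 1 * (x 1 : ℤ) ^ p 1 + α 2 * (x 2 : ℤ) ^ p 2 = 0 →
    ∀ j, x j ≤ C * B ^ c := by
  obtain ⟨r, hr⟩ : ∃ r, r = 3 * (D + 1) := ⟨_, rfl⟩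
  have hpb : PB fun B => r * (((1 + 3 * B) * (r * B) ^ J) * B) * (((1 + 3 * B) * (r * B) ^ J) ^ 2 *
      ((1 + 3 * B) * (r * (((1 + 3 * B) * (r * B) ^ J) * B)) ^ J)) ^
        (8 * (4 * J) ^ r) ^ (r * r + 1) := by
    have h0 : PB fun B => 1 + 3 * B := (PB.const 1).add ((PB.const 3).mul PB.id)
    have h1 : PB fun B => (1 + 3 * B) * (r * B) ^ J :=
      h0.mul (((PB.const r).mul PB.id).pow J)
    have h2 : PB fun B => r * (((1 + 3 * B) * (r * B) ^ J) * B) := (PB.const r).mul (h1.mul PB.id)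
    exact h2.mul (((h1.pow 2).mul (h0.mul (h2.pow J))).pow _)
  obtain ⟨C, c, hC⟩ := hpb
  refine ⟨C, c, ?_⟩
  intro w B α x p a e q hw hB hp hpJ hx0 hα hq hx hyp hcop heq j
  have hcard : Fintype.card (Fin 3 × Option (Fin D)) = r := by simp [hr]
  have E : Fin 3 × Option (Fin D) ≃ Fin r := Fintype.equivFinOfCardEq hcard
  have hBz : (1 : ℤ) ≤ B := by exact_mod_cast hB
  have h := Pool.Agent.H458.Sp.fc_all (r := r) (p 0) (p 1) (p 2) (hp 0) (hp 1) (hp 2) hyp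
    (α 0) (α 1) (α 2) (hα 0).1 (hα 1).1 (hα 2).1 w hw B
    (fun i => match E.symm i with | (j, none) => a j | (j, some k) => e j k)
    (fun j' i => match E.symm i with
      | (j, none) => if j' = j then 1 else 0
      | (j, some k) => if j' = j then q j k else 0)
    (by
      intro j' i
      rcases E.symm i with ⟨j, _ | k⟩
      · dsimp only
        split_ifs
        · simpa using hBz
        · simp
      · dsimp only
        split_ifs
        · exact hq j k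
        · simp)
    (fun j => (x j : ℤ))
    (by
      intro j'
      rw [← E.sum_comp]
      simp only [E.symm_apply_apply]
      rw [Fintype.sum_prod_type]
      simp only [Fintype.sum_option]
      rw [hx j']
      rw [sum_eq_single j' (by
        intro j _ hj
        rw [if_neg (Ne.symm hj), zero_mul, zero_add]
        apply sum_eq_zero
        intro k _
        rw [if_neg (Ne.symm hj), zero_mul]) (by simp)]
      simp)
    (by intro j; have := hx0 j; exact_mod_cast (by omega : x j ≠ 0))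
    (Nat.isCoprime_iff_coprime.2 hcop)
    heq
    J (hpJ 0) (hpJ 1) (hpJ 2) (3 * B) (by
      have h0 := (hα 0).2
      have h1 := (hα 1).2
      have h2 := (hα 2).2
      push_cast
      linarith) ((1 + 3 * B) * (r * B) ^ J) rfl j
  have h1 := hC B hB
  have h2 : |(x j : ℤ)| = x j := abs_of_nonneg (by positivity)
  rw [h2] at h
  exact (Int.ofNat_le.1 h).trans h1

theorem sort3 (t : Fin 3 → ℤ) : ∃ σ : Equiv.Perm (Fin 3), t (σ 1) ≤ t (σ 0) ∧ t (σ 0) ≤ t (σ 2) := by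
  have h := Tuple.monotone_sort t
  refine ⟨(Equiv.swap 0 1).trans (Tuple.sort t), ?_, ?_⟩
  · have := h (show (0 : Fin 3) ≤ 1 by decide)
    simpa using this
  · have := h (show (1 : Fin 3) ≤ 2 by decide)
    have e1 : (Equiv.swap (0 : Fin 3) 1) 2 = 2 := by decide
    simpa [e1] using this

theorem mainC (D R : ℕ) : ∃ M : ℕ, {v : ℤ × ℤ × ℤ | ∃ (α : Fin 3 → ℤ) (x p a : Fin 3 → ℕ)
    (e : Fin 3 → Fin D → ℕ) (c : Fin 3 → Fin D → ℤ) (w B N : ℕ), 2 ≤ w ∧ 1 ≤ B ∧ (∀ j, 1 ≤ x j) ∧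
    (∀ j, 1 ≤ p j ∧ p j ≤ B) ∧ (∀ j, α j ≠ 0 ∧ |α j| ≤ B) ∧
    (∀ i j, i ≠ j → Nat.Coprime (x i) (x j)) ∧ ∑ j, α j * (x j : ℤ) ^ p j = 0 ∧
    p 1 * p 2 + p 2 * p 0 + p 0 * p 1 ≤ p 0 * p 1 * p 2 ∧
    (∀ j, Dig w D R B (x j) (a j) (e j) (c j)) ∧ (∀ j, x j ≤ N ∧ N ≤ x j ^ R) ∧ B ^ M ≤ N ∧
    (∀ i j, (∃ n, x i ∣ w ^ n) → (∃ n, x j ∣ w ^ n) → i = j) ∧
    v = (α 0 * (x 0 : ℤ) ^ p 0, α 1 * (x 1 : ℤ) ^ p 1, α 2 * (x 2 : ℤ) ^ p 2)}.Finite := by
  -- bounded `N`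
  have hfin : ∀ N₀ : ℕ, {v : ℤ × ℤ × ℤ | ∃ (α : Fin 3 → ℤ) (x p : Fin 3 → ℕ) (B N : ℕ),
      (∀ j, 1 ≤ x j) ∧ (∀ j, 1 ≤ p j ∧ p j ≤ B) ∧ (∀ j, α j ≠ 0 ∧ |α j| ≤ B) ∧ (∀ j, x j ≤ N) ∧
      B ≤ N ∧ N ≤ N₀ ∧
      v = (α 0 * (x 0 : ℤ) ^ p 0, α 1 * (x 1 : ℤ) ^ p 1, α 2 * (x 2 : ℤ) ^ p 2)}.Finite := by
    intro N₀
    obtain ⟨V, hV⟩ : ∃ V : ℤ, V = N₀ * ((N₀ + 1 : ℕ) : ℤ) ^ N₀ := ⟨_, rfl⟩
    refine ((Set.finite_Icc (-V) V).prod ((Set.finite_Icc (-V) V).prod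
      (Set.finite_Icc (-V) V))).subset ?_
    rintro v ⟨α, x, p, B, N, hx, hp, hα, hxN, hBN, hN, rfl⟩
    have key : ∀ j, |α j * (x j : ℤ) ^ p j| ≤ V := by
      intro j
      rw [abs_mul, abs_of_nonneg (by positivity : (0 : ℤ) ≤ (x j : ℤ) ^ p j), hV]
      apply mul_le_mul _ _ (by positivity) (by positivity)
      · exact (hα j).2.trans (by exact_mod_cast hBN.trans hN)
      · have h1 : x j ^ p j ≤ (N₀ + 1) ^ N₀ := by
          calc x j ^ p j ≤ (N₀ + 1) ^ p j := Nat.pow_le_pow_left (by have := hxN j; omega) _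
            _ ≤ (N₀ + 1) ^ N₀ := Nat.pow_le_pow_right (by omega) (by have := (hp j).2; omega)
        exact_mod_cast h1
    simp only [Set.mem_prod, Set.mem_Icc]
    exact ⟨abs_le.1 (key 0), abs_le.1 (key 1), abs_le.1 (key 2)⟩
  rcases Nat.eq_zero_or_pos D with hD | hD
  · refine ⟨1, ?_⟩
    convert Set.finite_empty
    rw [Set.eq_empty_iff_forall_notMem]
    rintro v ⟨α, x, p, a, e, c, w, B, N, hw, hB, hx, hp, hα, hcop, heq, hyp, hdig, hN, hBN, hdv, rfl⟩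
    subst hD
    have h1 : ∀ j, ∃ n, x j ∣ w ^ n := by
      intro j
      refine ⟨a j, ?_⟩
      have h2 := (hdig j).hx
      simp only [univ_eq_empty, sum_empty, add_zero] at h2
      have h3 : x j = w ^ a j := by exact_mod_cast h2
      rw [h3]
    exact absurd (hdv 0 1 (h1 0) (h1 1)) (by decide)
  rcases Nat.eq_zero_or_pos R with hR | hR
  · refine ⟨1, (hfin 1).subset ?_⟩
    rintro v ⟨α, x, p, a, e, c, w, B, N, hw, hB, hx, hp, hα, hcop, heq, hyp, hdig, hN, hBN, hdv, rfl⟩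
    subst hR
    rw [pow_one] at hBN
    exact ⟨α, x, p, B, N, hx, hp, hα, fun j => (hN j).1, hBN, by simpa using (hN 0).2, rfl⟩
  obtain ⟨M1, J, hkey⟩ := keyC D R hD hR
  obtain ⟨C₁, c₁, hbb⟩ := bases_boundC D J
  refine ⟨4 * M1 + 2 * (c₁ * R) + 1, (hfin (2 + (16 * D) ^ (2 * M1) + C₁ ^ (2 * R))).subset ?_⟩
  rintro v ⟨α, x, p, a, e, c, w, B, N, hw, hB, hx, hp, hα, hcop, heq, hyp, hdig, hN, hBN, hdv, rfl⟩
  have hBN1 : B ≤ N := (Nat.le_self_pow (by omega) B).trans hBN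
  suffices h : N ≤ 2 + (16 * D) ^ (2 * M1) + C₁ ^ (2 * R) from
    ⟨α, x, p, B, N, hx, hp, hα, fun j => (hN j).1, hBN1, h, rfl⟩
  by_contra hcon
  push Not at hcon
  have hN2 : 2 ≤ N := by omega
  have hp2 : ∀ j, 2 ≤ p j := by
    have k0 := (hp 0).1
    have k1 := (hp 1).1
    have k2 := (hp 2).1
    have q0 : p 0 ≠ 1 := by
      intro h
      rw [h] at hyp
      simp only [one_mul, mul_one] at hyp
      omega
    have q1 : p 1 ≠ 1 := by
      intro h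
      rw [h] at hyp
      simp only [one_mul, mul_one] at hyp
      have : p 2 * p 0 = p 0 * p 2 := mul_comm _ _
      omega
    have q2 : p 2 ≠ 1 := by
      intro h
      rw [h] at hyp
      simp only [one_mul, mul_one] at hyp
      omega
    intro j
    fin_cases j <;> simp only [Fin.zero_eta, Fin.mk_one, Fin.reduceFinMk] <;> omega
  have hZN : (16 * B * D * B) ^ M1 ≤ N := by
    have h2 : (16 * D) ^ (2 * M1) ≤ N := by omega
    have h3 : B ^ (4 * M1) ≤ N := (Nat.pow_le_pow_right hB (by omega)).trans hBN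
    rw [← Nat.pow_le_pow_iff_left (show 2 ≠ 0 by norm_num)]
    calc ((16 * B * D * B) ^ M1) ^ 2 = (16 * D) ^ (2 * M1) * B ^ (4 * M1) := by
          rw [show 16 * B * D * B = (16 * D) * B ^ 2 by ring, mul_pow, mul_pow, ← pow_mul, ← pow_mul,
            ← pow_mul, mul_comm M1 2]
          congr 2
          ring
      _ ≤ N * N := Nat.mul_le_mul h2 h3
      _ = N ^ 2 := (sq N).symm
  have hpJ : ∀ j, p j ≤ J := by
    obtain ⟨σ, h1, h2⟩ := sort3 (fun j => |α j| * (x j : ℤ) ^ p j)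
    have hs : α (σ 0) * (x (σ 0) : ℤ) ^ p (σ 0) + α (σ 1) * (x (σ 1) : ℤ) ^ p (σ 1) +
        α (σ 2) * (x (σ 2) : ℤ) ^ p (σ 2) = 0 := by
      rw [← Fin.sum_univ_three (fun j => α (σ j) * (x (σ j) : ℤ) ^ p (σ j)),
        Equiv.sum_comp σ (fun j => α j * (x j : ℤ) ^ p j)]
      exact heq
    have h02 : σ 0 ≠ σ 2 := fun h => absurd (σ.injective h) (by decide)
    have h := hkey w N B B (fun j => α (σ j)) (fun j => x (σ j)) (fun j => p (σ j))
      (fun j => a (σ j)) (fun j => e (σ j)) (fun j => c (σ j)) hw hB hN2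
      (fun j => ⟨hp2 _, (hp _).2⟩) (fun j => hdig _) (fun j => hN _) hZN (fun j => hα _) hs h1 h2
      (hcop _ _ h02) (fun h => h02 (hdv _ _ h.1 h.2))
    intro j
    have := h (σ.symm j)
    simpa using this
  have hxb := hbb w B α x p a e c hw hB (fun j => (hp j).1) hpJ hx hα (fun j => (hdig j).hc)
    (fun j => (hdig j).hx) hyp (hcop 0 1 (by decide)) (by rw [← heq, Fin.sum_univ_three])
  have h1 : N ≤ C₁ ^ R * B ^ (c₁ * R) := by
    calc N ≤ x 0 ^ R := (hN 0).2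
      _ ≤ (C₁ * B ^ c₁) ^ R := Nat.pow_le_pow_left (hxb 0) _
      _ = C₁ ^ R * B ^ (c₁ * R) := by rw [mul_pow, ← pow_mul]
  have h2 : N * N ≤ C₁ ^ (2 * R) * N := by
    calc N * N ≤ (C₁ ^ R * B ^ (c₁ * R)) * (C₁ ^ R * B ^ (c₁ * R)) := Nat.mul_le_mul h1 h1
      _ = C₁ ^ (2 * R) * B ^ (2 * (c₁ * R)) := by
          rw [two_mul R, two_mul (c₁ * R), pow_add, pow_add]; ring
      _ ≤ C₁ ^ (2 * R) * N := Nat.mul_le_mul_left _
          ((Nat.pow_le_pow_right hB (by omega)).trans hBN)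
  have h3 : N ≤ C₁ ^ (2 * R) := Nat.le_of_mul_le_mul_right h2 (by omega)
  omega

end Pool.Agent.Run7.h777.FC
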